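import Pool.Agent.helper80.HM.SpecD

/-!
# HM, row ACC
-/

set_option autoImplicit false

namespace Pool.Agent.HM

open Finset Pool.Agent.helper38.Neg Pool.Agent.helper55.NT

/-- the data of one gate -/
theorem ACC_gate {n s : ℕ} (g : Gate (n + s)) : ∃ (p q : Fin (n + s + 1)) (φ : Bool → Bool → Bool),
    ∀ z : Fin (n + s + 1) → Bool,
      φ (z p) (z q) = g.eval fun i => z (Fin.castSucc i) := by
  cases g with
  | const b => exact ⟨Fin.last _, Fin.last _, fun _ _ => b, fun z => rfl⟩
  | and i j => exact ⟨Fin.castSucc i, Fin.castSucc j, fun b c => b && c, fun z => rfl⟩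
  | or i j => exact ⟨Fin.castSucc i, Fin.castSucc j, fun b c => b || c, fun z => rfl⟩
  | not i => exact ⟨Fin.castSucc i, Fin.castSucc i, fun b _ => !b, fun z => rfl⟩

/-- row ACC -/
theorem ACC : ACC_stmt := by
  intro n s C
  induction C with
  | nil =>
    refine ⟨fun i => i.elim0, fun i => i.elim0, fun i => i.elim0, fun x z => ?_⟩
    constructor
    · rintro rfl
      exact ⟨fun i => rfl, fun g => g.elim0⟩
    · rintro ⟨h, -⟩
      funext i
      exact h i
  | @snoc s C g ih =>
    obtain ⟨P, Q, φ, hC⟩ := ih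
    obtain ⟨p, q, ψ, hg⟩ := ACC_gate g
    refine ⟨Fin.snoc (α := fun _ => Fin (n + s + 1)) (fun i => Fin.castSucc (P i)) p,
      Fin.snoc (α := fun _ => Fin (n + s + 1)) (fun i => Fin.castSucc (Q i)) q,
      Fin.snoc (α := fun _ => Bool → Bool → Bool) φ ψ, fun x z => ?_⟩
    have h1 : z = (C.snoc g).val x ↔
        (fun i => z (Fin.castSucc i)) = C.val x ∧
          z (Fin.last (n + s)) = g.eval fun i => z (Fin.castSucc i) := by
      rw [Circuit.val]
      constructor
      · intro h
        have e1 : (fun i => z (Fin.castSucc i)) = C.val x := by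
          funext i
          rw [h]
          exact Fin.snoc_castSucc (α := fun _ => Bool) _ _ _
        refine ⟨e1, ?_⟩
        rw [e1, h]
        exact Fin.snoc_last (α := fun _ => Bool) _ _
      · rintro ⟨e1, e2⟩
        funext i
        refine Fin.lastCases (motive := fun i : Fin (n + s + 1) => z i =
          Fin.snoc (α := fun _ => Bool) (C.val x) (g.eval (C.val x)) i) ?_ (fun i => ?_) i
        · rw [Fin.snoc_last, e2, e1]
        · rw [Fin.snoc_castSucc]
          exact congrFun e1 i
    refine h1.trans ((and_congr (hC x fun i => z (Fin.castSucc i)) Iff.rfl).trans ?_)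
    constructor
    · rintro ⟨⟨h2, h3⟩, h4⟩
      refine ⟨fun i => h2 i, fun i => ?_⟩
      refine Fin.lastCases (motive := fun i : Fin (s + 1) => z (Fin.natAdd n i) =
        (Fin.snoc (α := fun _ => Bool → Bool → Bool) φ ψ i : Bool → Bool → Bool)
          (z (Fin.snoc (α := fun _ => Fin (n + s + 1)) (fun i => Fin.castSucc (P i)) p i))
          (z (Fin.snoc (α := fun _ => Fin (n + s + 1)) (fun i => Fin.castSucc (Q i)) q i)))
        ?_ (fun i => ?_) i
      · rw [Fin.snoc_last, Fin.snoc_last, Fin.snoc_last]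
        exact h4.trans (hg z).symm
      · rw [Fin.snoc_castSucc, Fin.snoc_castSucc, Fin.snoc_castSucc]
        exact h3 i
    · rintro ⟨h2, h3⟩
      refine ⟨⟨fun i => h2 i, fun i => ?_⟩, ?_⟩
      · have h4 := h3 (Fin.castSucc i)
        rw [Fin.snoc_castSucc, Fin.snoc_castSucc, Fin.snoc_castSucc] at h4
        exact h4
      · have h4 := h3 (Fin.last s)
        rw [Fin.snoc_last, Fin.snoc_last, Fin.snoc_last] at h4
        exact h4.trans (hg z)

end Pool.Agent.HM
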