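import Pool.Agent.helper80.HM.SpecD

/-!
# HM, row NHS
-/

set_option autoImplicit false

namespace Pool.Agent.HM

open Finset Pool.Agent.helper38.Neg Pool.Agent.helper55.NT
open Pool.Agent.LN (HC)

theorem NHS_aux (M r : ℕ) (hr : r = M) (h : r * r ≤ M * M) (x : Fin (M * M) → Bool) :
    Pool.Agent.helper33.Mod.Clique r (r / 2) (fun i => x (Fin.castLE h i)) ↔
      Pool.Agent.helper33.Mod.Clique M (M / 2) x := by
  subst hr
  exact Iff.rfl

/-- row NHS -/
theorem NHS : NHS_stmt := by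
  intro M x
  exact NHS_aux M (Nat.sqrt (M * M)) (Nat.sqrt_eq M) (Nat.sqrt_le (M * M)) x

end Pool.Agent.HM
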