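import Pool.Agent.helper80.HM.All
import Pool.Agent.helper80.HM.ACC
import Pool.Agent.helper80.HM.NHS
import Pool.Agent.helper25.HM.CPO
import Pool.Agent.helper97.HM.NLI
import Pool.Agent.helper67.HM.NCF
import Pool.Agent.helper73.HM.NCB
import Pool.Agent.helper40.HM.NRE
import Pool.Agent.helper50.HM.NPC
import Pool.Agent.helper81.HM.CRH
import Pool.Agent.helper49.HM.THH

/-!
# Hereditarily monotone circuits: the rows on the completeness of the half clique language
-/

set_option autoImplicit false

namespace Pool.Agent.HM

theorem all_NRE : NRE_stmt := NRE ACC CPO NLI NCF NCB NHS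
theorem all_NPC : NPC_stmt := NPC all_NRE
theorem all_CRH : CRH_stmt := CRH all_UPM all_EXP all_NPC
theorem all_THH : THH_stmt := THH all_CRH all_HCM

end Pool.Agent.HM
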