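import Pool.Agent.helper80.HM.SpecB

/-!
# HM, rows CLO and LCG
-/

set_option autoImplicit false

namespace Pool.Agent.HM

open Finset Pool.Agent.helper33.Mod

/-- row CLO -/
theorem CLO : CLO_stmt := by
  classical
  intro M c L N Φ hc hL
  obtain ⟨B, h1, h2, h3⟩ := exists_closure L Φ ((1 / 2) ^ N * (c : ℝ) ^ M)
  refine ⟨B, ?_, h3, ?_⟩
  · refine h2.trans ?_
    unfold ET
    refine mul_le_mul_of_nonneg_right ?_ (by positivity)
    have h4 : B.card ≤ (M + 1) ^ L := by
      refine (card_le_card (t := univ.filter fun K : Finset (Fin M) => K.card ≤ L) ?_).trans ?_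
      · intro K hK
        exact mem_filter.2 ⟨mem_univ _, h1 K hK⟩
      · have h5 := card_small (V := Fin M) L
        rwa [Fintype.card_fin] at h5
    exact_mod_cast h4
  · refine closure_cl (Φ := Φ) hc hL h1 ?_
    rw [Fintype.card_fin]
    exact h3

/-- row LCG -/
theorem LCG : LCG_stmt := by
  intro M t S k c σ l L N g lv d V β F F' i hF h
  obtain ⟨⟨P, hP1, hP2⟩, hpos⟩ := h
  refine ⟨⟨P, hP1, fun x hx hA => ?_⟩, fun T hT hTc => ?_⟩
  · rw [← hF i le_rfl] at hA
    refine hP2 x (fun j hj hlj hj2 => hx j hj hlj ?_) hA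
    rw [← hF j hj.le]
    exact hj2
  · obtain ⟨X, hX1, hX2⟩ := hpos T hT hTc
    refine ⟨X, hX1, fun Q hQ hx hg hQX => ?_⟩
    rw [← hF i le_rfl]
    refine hX2 Q hQ (fun j hj hlj hj2 => ?_) hg hQX
    rw [hF j hj.le]
    exact hx j hj hlj hj2

end Pool.Agent.HM
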