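import Pool.Agent.helper80.HM.SpecC
import Pool.Agent.helper89.HM.HCM

/-!
# HM: exponential size trade-off for the half clique function
-/

set_option autoImplicit false

namespace Pool.Agent.HM

open Finset Pool.Agent.helper38.Neg Pool.Agent.helper55.NT
open Pool.Agent.LN (HC)

/-- The half clique function needs size more than `2 ^ (n ^ (1 / (C (t + 1))))`. -/
def HCX_stmt : Prop := ∀ e : ℕ, ∃ C : ℕ, ∀ n ≥ C, ∀ (a t s : ℕ) (c : HCircuit a n s)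
  (o : Fin (n + s)), 1 ≤ a → a ≤ lg n ^ e → C * (t + 1) * lg (lg n) < lg n → HerMono c t →
  (∀ x, c.val x o = true ↔ HC n x) → 2 ^ 2 ^ (lg n / (C * (t + 1))) < s

theorem HCX_core (e C n a t s B l M : ℕ) (hC : 16 * (10 * e + 33) ≤ C)
    (hB16 : 16 ≤ B) (hnB : 2 ^ B ≤ n + 2) (hnB' : n + 2 < 2 ^ (B + 1)) (hl1 : 4 ≤ l)
    (hBl : B < 2 ^ (l + 1)) (hM : M * M ≤ n) (hM' : ∀ m, m * m ≤ n → m ≤ M)
    (ha : 1 ≤ a) (haB : a ≤ B ^ e) (hs : s ≤ 2 ^ 2 ^ (B / (C * (t + 1))))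
    (hCt : C * (t + 1) * l < B) :
    ∃ k σ : ℕ, 1 ≤ k ∧ k ≤ M / 2 ∧ (8 * (a + 1) * (t + 1) ^ 2 * σ) ^ 2 < k ∧
      (8 * a * k ^ 2 * (Nat.log 2 M + 2)) ^ (t + 1) ≤ M - (M / 2 - k) ∧
      2 * (s + 1 + M * M) < 2 ^ σ := by
  have hB0 : 0 < B := by omega
  have hCt0 : 0 < C * (t + 1) := Nat.mul_pos (by omega) (Nat.succ_pos _)
  obtain ⟨x, hx⟩ : ∃ x, x = B / (C * (t + 1)) := ⟨_, rfl⟩
  rw [← hx] at hs
  have hxB : x * (C * (t + 1)) ≤ B := by rw [hx]; exact Nat.div_mul_le_self _ _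
  have hlx : l ≤ x := by
    rw [hx, Nat.le_div_iff_mul_le hCt0]
    calc l * (C * (t + 1)) = C * (t + 1) * l := by ring
      _ ≤ B := hCt.le
  obtain ⟨X, hX⟩ : ∃ X, X = 2 ^ x := ⟨_, rfl⟩
  rw [← hX] at hs
  have hX16 : 16 ≤ X := by
    rw [hX]
    calc 16 = 2 ^ 4 := by norm_num
      _ ≤ 2 ^ x := Nat.pow_le_pow_right (by norm_num) (by omega)
  have hB2X : B ≤ 2 * X := by
    have h1 : 2 ^ (l + 1) ≤ 2 ^ (x + 1) := Nat.pow_le_pow_right (by norm_num) (by omega)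
    have h2 : 2 ^ (x + 1) = 2 * X := by rw [hX, pow_succ]; ring
    omega
  have hXX : 16 * X ≤ X ^ 2 := by
    rw [pow_two]
    exact Nat.mul_le_mul_right _ hX16
  have hBX : B ≤ X ^ 2 := by omega
  have hX0 : 0 < X := by omega
  -- `t + 1 ≤ B`
  have htB : t + 1 ≤ B := by
    have h1 : 1 * (t + 1) * 1 ≤ C * (t + 1) * l :=
      Nat.mul_le_mul (Nat.mul_le_mul (by omega) le_rfl) (by omega)
    omega
  obtain ⟨W, hW⟩ : ∃ W, W = x * ((10 * e + 33) * (t + 1)) := ⟨_, rfl⟩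
  have hWB : 16 * W ≤ B := by
    refine le_trans ?_ hxB
    rw [hW]
    calc 16 * (x * ((10 * e + 33) * (t + 1))) = x * ((16 * (10 * e + 33)) * (t + 1)) := by ring
      _ ≤ x * (C * (t + 1)) := Nat.mul_le_mul_left _ (Nat.mul_le_mul_right _ hC)
  -- `M` is large
  have hM4 : 4 * 2 ^ W ≤ M := by
    apply hM'
    have h1 : 4 * 2 ^ W * (4 * 2 ^ W) = 2 ^ (2 * W + 4) := by
      rw [pow_add, two_mul, pow_add]
      ring
    rw [h1]
    have h2 : 2 ^ (2 * W + 4) ≤ 2 ^ (B - 1) := Nat.pow_le_pow_right (by norm_num) (by omega)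
    have h3 : 2 ^ B = 2 * 2 ^ (B - 1) := by
      rw [← pow_succ']
      congr 1
      omega
    have h4 : 2 ^ 1 ≤ 2 ^ (B - 1) := Nat.pow_le_pow_right (by norm_num) (by omega)
    omega
  have hM1 : 1 ≤ M := by
    have : 1 ≤ 2 ^ W := Nat.one_le_two_pow
    omega
  have hlogM : Nat.log 2 M + 2 ≤ B := by
    have h1 : 2 ^ Nat.log 2 M ≤ M := Nat.pow_log_le_self 2 (by omega)
    have h2 : 2 ^ (2 * Nat.log 2 M) < 2 ^ (B + 1) := by
      calc 2 ^ (2 * Nat.log 2 M) = 2 ^ Nat.log 2 M * 2 ^ Nat.log 2 M := by rw [two_mul, pow_add]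
        _ ≤ M * M := Nat.mul_le_mul h1 h1
        _ < 2 ^ (B + 1) := by omega
    have h3 : 2 * Nat.log 2 M < B + 1 := (Nat.pow_lt_pow_iff_right (by norm_num)).mp h2
    omega
  have haX : a ≤ X ^ (2 * e) := by
    calc a ≤ B ^ e := haB
      _ ≤ (X ^ 2) ^ e := Nat.pow_le_pow_left hBX _
      _ = X ^ (2 * e) := by rw [← pow_mul]
  have hX2e : 1 ≤ X ^ (2 * e) := Nat.one_le_pow _ _ hX0
  have h8a : 8 * (a + 1) ≤ X ^ (2 * e + 1) := by
    calc 8 * (a + 1) ≤ 16 * X ^ (2 * e) := by omega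
      _ ≤ X * X ^ (2 * e) := Nat.mul_le_mul_right _ hX16
      _ = X ^ (2 * e + 1) := by ring
  obtain ⟨k, hk⟩ : ∃ k, k = X ^ (4 * e + 15) := ⟨_, rfl⟩
  have hk1 : 1 ≤ k := by rw [hk]; exact Nat.one_le_pow _ _ hX0
  obtain ⟨P, hP⟩ : ∃ P, P = 8 * a * k ^ 2 * (Nat.log 2 M + 2) := ⟨_, rfl⟩
  have hPB : P ≤ X ^ (10 * e + 33) := by
    calc P ≤ X ^ (2 * e + 1) * k ^ 2 * X ^ 2 := by
          rw [hP]
          exact Nat.mul_le_mul (Nat.mul_le_mul (by omega) le_rfl) (hlogM.trans hBX)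
      _ = X ^ (10 * e + 33) := by
          rw [hk, ← pow_mul, ← pow_add, ← pow_add]
          congr 1
          ring
  have hPt : P ^ (t + 1) ≤ 2 ^ W := by
    calc P ^ (t + 1) ≤ (X ^ (10 * e + 33)) ^ (t + 1) := Nat.pow_le_pow_left hPB _
      _ = 2 ^ W := by
        rw [hX, hW, ← pow_mul, ← pow_mul]
  have hkP : k ≤ P := by
    rw [hP]
    have h1 : 1 ≤ 8 * a := by omega
    have h2 : k ≤ k ^ 2 := by
      rw [pow_two]
      exact Nat.le_mul_of_pos_left _ hk1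
    calc k ≤ k ^ 2 := h2
      _ = 1 * k ^ 2 * 1 := by ring
      _ ≤ 8 * a * k ^ 2 * (Nat.log 2 M + 2) := Nat.mul_le_mul (Nat.mul_le_mul h1 le_rfl) (by omega)
  have hkW : k ≤ 2 ^ W := by
    have h1 : 1 ≤ P := hk1.trans hkP
    calc k ≤ P := hkP
      _ = P ^ 1 := (pow_one P).symm
      _ ≤ P ^ (t + 1) := Nat.pow_le_pow_right h1 (by omega)
      _ ≤ 2 ^ W := hPt
  have hfin : (8 * a * k ^ 2 * (Nat.log 2 M + 2)) ^ (t + 1) ≤ M - (M / 2 - k) := by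
    rw [← hP]
    omega
  refine ⟨k, X + B + 4, hk1, by omega, ?_, hfin, ?_⟩
  · have h1 : X + B + 4 ≤ X ^ 2 := by omega
    have h3 : 8 * (a + 1) * (t + 1) ^ 2 * (X + B + 4) ≤
        X ^ (2 * e + 1) * (X ^ 2) ^ 2 * X ^ 2 :=
      Nat.mul_le_mul (Nat.mul_le_mul h8a (Nat.pow_le_pow_left (htB.trans hBX) 2)) h1
    calc (8 * (a + 1) * (t + 1) ^ 2 * (X + B + 4)) ^ 2
        ≤ (X ^ (2 * e + 1) * (X ^ 2) ^ 2 * X ^ 2) ^ 2 := Nat.pow_le_pow_left h3 2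
      _ = X ^ (4 * e + 14) := by
        rw [← pow_mul, ← pow_add, ← pow_add, ← pow_mul]
        congr 1
        ring
      _ < k := by
        rw [hk]
        exact Nat.pow_lt_pow_right (by omega) (by omega)
  · have hx1 : 1 ≤ 2 ^ X := Nat.one_le_two_pow
    have hy : 1 ≤ 2 ^ B := Nat.one_le_two_pow
    have h1 : 2 ^ (X + B + 4) = 16 * (2 ^ X * 2 ^ B) := by
      rw [pow_add, pow_add]
      ring
    have h2 : 2 ^ (B + 1) = 2 * 2 ^ B := by ring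
    have h3 : 1 * 2 ^ B ≤ 2 ^ X * 2 ^ B := Nat.mul_le_mul_right _ hx1
    have h4 : 2 ^ X * 1 ≤ 2 ^ X * 2 ^ B := Nat.mul_le_mul_left _ hy
    rw [h1]
    omega

/-- The trade-off for the half clique function. -/
theorem HCX (hPAD : PAD_stmt) (hLBF : LBF_stmt) : HCX_stmt := by
  intro e
  refine ⟨16 * (10 * e + 33) + 2 ^ 16, ?_⟩
  intro n hn a t s c o ha1 hae hCt hc hHC
  by_contra hcon
  have hB16 : 16 ≤ lg n := by
    have : 16 ≤ Nat.log 2 (n + 2) := Nat.le_log_of_pow_le (by norm_num) (by omega)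
    exact this
  obtain ⟨k, σ, hk1, hk2, hk3, hk4, hk5⟩ := HCX_core e (16 * (10 * e + 33) + 2 ^ 16) n a t s
    (lg n) (lg (lg n)) (Nat.sqrt n) (by omega) hB16 (Nat.pow_log_le_self 2 (by omega))
    (Nat.lt_pow_succ_log_self (b := 2) (by norm_num) (n + 2)) (by
      have h16 : 2 ^ 4 ≤ lg n + 2 := by omega
      exact Nat.le_log_of_pow_le (by norm_num) h16) (by
      have := Nat.lt_pow_succ_log_self (b := 2) (by norm_num) (lg n + 2)
      have h2 : lg n + 2 < 2 ^ (lg (lg n) + 1) := this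
      omega) (Nat.sqrt_le n) (fun m hm => Nat.le_sqrt.mpr hm) ha1 hae (not_lt.1 hcon) hCt
  obtain ⟨C', o', hC', hval⟩ := hPAD c o (Nat.sqrt_le n) hc
  have hsep : Separates (Nat.sqrt n) (Nat.sqrt n / 2) (fun x => C'.val x o') := by
    constructor
    · intro Q hQ
      have h1 : c.val (pad (Pool.Agent.helper33.Mod.gQ Q)) o = true :=
        (hHC _).2 ((HCM_HC n _).2 (Pool.Agent.helper33.Mod.clique_gQ hQ))
      exact (hval _).trans h1
    · intro h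
      by_contra h0
      have h1 : C'.val (Pool.Agent.helper33.Mod.gH h) o' = true := by
        simpa using h0
      rw [hval] at h1
      exact Pool.Agent.helper33.Mod.not_clique_gH (hk1.trans hk2) h ((HCM_HC n _).1 ((hHC _).1 h1))
  have h2 := hLBF C' o' ha1 hC' hsep hk2 hk3 hk4
  omega

end Pool.Agent.HM
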