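import Pool.Agent.helper80.HM.SpecA

/-!
# HM, row KSC
-/

set_option autoImplicit false

namespace Pool.Agent.HM

open Finset Pool.Agent.helper33.Mod

/-- row KSC -/
theorem KSC : KSC_stmt := by
  classical
  intro M k V T hT hk
  have h1 : (KS k V T).card = (powersetCard (k - T.card) (V \ T)).card := by
    refine card_bij' (fun Q _ => Q \ T) (fun R _ => R ∪ T) ?_ ?_ ?_ ?_
    · intro Q hQ
      obtain ⟨h2, h3, h4⟩ := mem_KS.1 hQ
      refine mem_powersetCard.2 ⟨sdiff_subset_sdiff h2 (Subset.refl _), ?_⟩
      rw [card_sdiff_of_subset h4, h3]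
    · intro R hR
      obtain ⟨h2, h3⟩ := mem_powersetCard.1 hR
      refine mem_KS.2 ⟨union_subset (h2.trans sdiff_subset) hT, ?_, subset_union_right⟩
      have hd : Disjoint R T := by
        rw [Finset.disjoint_left]
        intro v hv hv'
        exact (mem_sdiff.1 (h2 hv)).2 hv'
      rw [card_union_of_disjoint hd, h3]
      omega
    · intro Q hQ
      obtain ⟨-, -, h4⟩ := mem_KS.1 hQ
      exact sdiff_union_of_subset h4
    · intro R hR
      obtain ⟨h2, -⟩ := mem_powersetCard.1 hR
      have hd : Disjoint R T := by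
        rw [Finset.disjoint_left]
        intro v hv hv'
        exact (mem_sdiff.1 (h2 hv)).2 hv'
      rw [union_sdiff_right]
      exact sdiff_eq_self_of_disjoint hd
  rw [h1, card_powersetCard, card_sdiff_of_subset hT]

end Pool.Agent.HM
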