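import Pool.Agent.helper80.HM.SpecA

/-!
# HM, row NDM
-/

set_option autoImplicit false

namespace Pool.Agent.HM

open Finset Pool.Agent.helper33.Mod

theorem NDM_succ (a k L N d : ℕ) : nd a k L N (d + 1) = 8 * k * a * N * nd a k L N d := by
  unfold nd
  rw [pow_succ]
  ring

/-- row NDM -/
theorem NDM : NDM_stmt := by
  intro M a t S k c σ l L N hp hE
  obtain ⟨-, -, hc, hLk, hl2, hlL, hN3, -⟩ := hE hp
  have ha := hp.ha
  have hk1 : 1 ≤ k := by omega
  have hN1 : 1 ≤ N := by omega
  have h8 : 8 ≤ 8 * k * a * N := by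
    have h1 : 1 ≤ k * a * N := Nat.mul_pos (Nat.mul_pos hk1 ha) hN1
    nlinarith
  have hstep : ∀ d, 8 * nd a k L N d ≤ nd a k L N (d + 1) := by
    intro d
    rw [NDM_succ]
    exact Nat.mul_le_mul_right _ h8
  have h0 : ∀ d, nd a k L N 0 ≤ nd a k L N d := by
    intro d
    induction d with
    | zero => exact le_rfl
    | succ d ih => exact ih.trans (by have := hstep d; omega)
  have hk0 : k + l ≤ nd a k L N 0 := by
    unfold nd
    rw [pow_zero, mul_one]
    have h1 : 1 ≤ L := by omega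
    have h2 : 1 ≤ L * N := Nat.mul_pos h1 hN1
    have h3 : l ≤ k := by omega
    have h4 : k ≤ L * N * k := Nat.le_mul_of_pos_left _ h2
    have h5 : 16 * L * N * k = 16 * (L * N * k) := by ring
    omega
  refine ⟨fun d => by have := hstep d; omega, h0, fun d => hk0.trans (h0 d), ?_⟩
  intro d v T hv hT
  have hn := hk0.trans (h0 d)
  have hs := NDM_succ a k L N d
  obtain ⟨x, hx⟩ : ∃ x, x = a * N * nd a k L N d := ⟨_, rfl⟩
  have e1 : 4 * k * x * 2 = nd a k L N (d + 1) := by rw [hs, hx]; ring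
  have hx1 : nd a k L N d ≤ x := by
    rw [hx]
    exact Nat.le_mul_of_pos_left _ (Nat.mul_pos ha hN1)
  have e2 : a * N * (nd a k L N d - T) ≤ x := by
    rw [hx]
    exact Nat.mul_le_mul_left _ (Nat.sub_le _ _)
  have e3 : x ≤ k * x := Nat.le_mul_of_pos_left _ hk1
  have e4 : 4 * k * x = 4 * (k * x) := by ring
  constructor
  · have h1 : 4 * k * (a * N * (nd a k L N d - T)) ≤ 4 * k * x := Nat.mul_le_mul_left _ e2
    omega
  · have e5 : (a * N + 1) * (nd a k L N d - T) = a * N * (nd a k L N d - T) + (nd a k L N d - T) := by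
      ring
    omega

end Pool.Agent.HM
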