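import Pool.Agent.helper80.HM.SpecB

/-!
# HM, rows REC, LBF
-/

set_option autoImplicit false

namespace Pool.Agent.HM

open Finset Pool.Agent.helper33.Mod

/-- row REC -/
theorem REC : REC_stmt := by
  classical
  intro S α P hα hc hex
  have key : ∀ m : ℕ, m ≤ S → ∃ F : Fin S → α, ∀ i : Fin S, (i : ℕ) < m → P F i := by
    intro m
    induction m with
    | zero =>
      intro _
      obtain ⟨a⟩ := hα
      exact ⟨fun _ => a, fun i hi => by omega⟩
    | succ m ih =>
      intro hm
      obtain ⟨F, hF⟩ := ih (by omega)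
      obtain ⟨B, hB⟩ := hex F ⟨m, by omega⟩
      refine ⟨Function.update F ⟨m, by omega⟩ B, fun i hi => ?_⟩
      by_cases h : (i : ℕ) = m
      · have h1 : i = ⟨m, by omega⟩ := Fin.ext h
        rw [h1]
        exact hB
      · have h1 : (i : ℕ) < m := by omega
        refine hc F _ i (fun j hj => ?_) (hF i h1)
        rw [Function.update_of_ne]
        intro h2
        have h3 : (j : ℕ) = m := by rw [h2]
        have h4 : (j : ℕ) ≤ i := hj
        omega
  obtain ⟨F, hF⟩ := key S le_rfl
  exact ⟨F, fun i => hF i i.2⟩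

/-- row LBF -/
theorem LBF (hNUM : NUM_stmt) (hRUN : RUN_stmt) (hASM : ASM_stmt) (hTOP : TOP_stmt) :
    LBF_stmt := by
  intro a M s t κ k σ C o ha hC hsep hk h1 h2
  by_contra hcon
  have hS : 1 ≤ M * M + s := by
    have := o.2
    omega
  obtain ⟨l, L, N, hp, hn⟩ := hNUM (S := M * M + s) ha hS (by omega) hk h1 h2
  have hr := hRUN C hC
  exact hTOP o hp hr (hASM hp hr t le_rfl) hk hn hsep

end Pool.Agent.HM
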