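import Pool.Agent.helper80.HM.SpecA

/-!
# HM, rows RS and PRD
-/

set_option autoImplicit false

namespace Pool.Agent.HM

open Finset Pool.Agent.helper33.Mod

/-- row RS -/
theorem RS : RS_stmt := by
  classical
  intro M c D P
  have h1 : ∑ p : (Fin M → Fin c) × (Fin M → Fin c), ind (P (mix D p.1 p.2)) =
      ∑ p : (Fin M → Fin c) × (Fin M → Fin c), ind (P p.1) := by
    refine Finset.sum_bij' (fun p _ => (mix D p.1 p.2, mix D p.2 p.1))
      (fun p _ => (mix D p.1 p.2, mix D p.2 p.1)) ?_ ?_ ?_ ?_ ?_
    · intro p _; exact mem_univ _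
    · intro p _; exact mem_univ _
    · intro p _
      refine Prod.ext ?_ ?_
      · funext v
        simp only [mix]
        split_ifs <;> rfl
      · funext v
        simp only [mix]
        split_ifs <;> rfl
    · intro p _
      refine Prod.ext ?_ ?_
      · funext v
        simp only [mix]
        split_ifs <;> rfl
      · funext v
        simp only [mix]
        split_ifs <;> rfl
    · intro p _
      rfl
  rw [Fintype.sum_prod_type, Fintype.sum_prod_type] at h1
  have h2 : ∑ h0 : Fin M → Fin c, cn (fun h => P (mix D h0 h)) =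
      ∑ x : Fin M → Fin c, ∑ y : Fin M → Fin c, ind (P (mix D x y)) := rfl
  rw [h2, h1]
  simp only [sum_const, card_univ, Fintype.card_pi, Fintype.card_fin, prod_const, nsmul_eq_mul]
  rw [← Finset.mul_sum]
  unfold cn
  push_cast
  ring

/-- row PRD -/
theorem PRD (hIN2 : IN2_stmt) : PRD_stmt := by
  intro M c U P N hc hU hD hP
  have hcR : (0 : ℝ) < (c : ℝ) ^ M := by
    have : (0 : ℝ) < c := by exact_mod_cast hc
    positivity
  induction N with
  | zero =>
    rw [pow_zero, one_mul]
    exact cn_le_pow _
  | succ N ih =>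
    have ih' := ih (fun i hi j hj => hU i (by omega) j (by omega)) (fun b hb => hD b (by omega))
      (fun b hb => hP b (by omega))
    have h1 : cn (fun h : Fin M → Fin c => ∀ b < N + 1, P b h) ≤
        cn (fun h : Fin M → Fin c => P N h ∧ ∀ b < N, P b h) := by
      refine cn_mono fun h hh => ⟨hh N (by omega), fun b hb => hh b (by omega)⟩
    have h2 := hIN2 (U N) (P N) (fun h : Fin M → Fin c => ∀ b < N, P b h) (hD N (by omega)) (by
      intro h h' he
      have h3 : ∀ b < N, (P b h ↔ P b h') := by
        intro b hb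
        refine hD b (by omega) h h' fun v hv => he v ?_
        rw [mem_compl]
        exact fun hv' => Finset.disjoint_left.1 (hU b (by omega) N (by omega) (by omega)) hv hv'
      constructor
      · intro hh b hb
        exact (h3 b hb).1 (hh b hb)
      · intro hh b hb
        exact (h3 b hb).2 (hh b hb))
    have h4 := hP N (by omega)
    have h5 : (c : ℝ) ^ M * cn (fun h : Fin M → Fin c => P N h ∧ ∀ b < N, P b h) ≤
        (1 / 4 * (c : ℝ) ^ M) * ((1 / 4) ^ N * (c : ℝ) ^ M) := by
      rw [h2]
      exact mul_le_mul h4 ih' (cn_nonneg _) (by positivity)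
    have h6 : (c : ℝ) ^ M * cn (fun h : Fin M → Fin c => P N h ∧ ∀ b < N, P b h) ≤
        (c : ℝ) ^ M * ((1 / 4) ^ (N + 1) * (c : ℝ) ^ M) := by
      refine h5.trans (le_of_eq ?_)
      ring
    exact h1.trans (le_of_mul_le_mul_left h6 hcR)

end Pool.Agent.HM
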