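import Pool.Agent.helper80.HM.SpecB

/-!
# HM, row RUN
-/

set_option autoImplicit false

namespace Pool.Agent.HM

open Finset Pool.Agent.helper33.Mod

theorem RUN_val_last {a n s d : ℕ} (C : HCircuit a n s) (hd : d ≤ a) (w : Fin d → Fin (n + s))
    (φ : (Fin d → Bool) → Bool) (x : Fin n → Bool) :
    (C.snoc hd w φ).val x (Fin.last (n + s)) = φ fun j => C.val x (w j) := by
  rw [HCircuit.val]
  exact Fin.snoc_last (α := fun _ => Bool) _ _

theorem RUN_val_cast {a n s d : ℕ} (C : HCircuit a n s) (hd : d ≤ a) (w : Fin d → Fin (n + s))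
    (φ : (Fin d → Bool) → Bool) (x : Fin n → Bool) (i : Fin (n + s)) :
    (C.snoc hd w φ).val x (Fin.castSucc i) = C.val x i := by
  rw [HCircuit.val]
  exact Fin.snoc_castSucc (α := fun _ => Bool) _ _ _

open Classical in
theorem RUN_depth_last {a n s d : ℕ} (C : HCircuit a n s) (hd : d ≤ a) (w : Fin d → Fin (n + s))
    (φ : (Fin d → Bool) → Bool) :
    (C.snoc hd w φ).depth (Fin.last (n + s)) =
      (univ.sup fun j => C.depth (w j)) + if Alt φ then 1 else 0 := by
  rw [HCircuit.depth]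
  exact Fin.snoc_last (α := fun _ => ℕ) _ _

theorem RUN_depth_cast {a n s d : ℕ} (C : HCircuit a n s) (hd : d ≤ a) (w : Fin d → Fin (n + s))
    (φ : (Fin d → Bool) → Bool) (i : Fin (n + s)) :
    (C.snoc hd w φ).depth (Fin.castSucc i) = C.depth i := by
  rw [HCircuit.depth]
  exact Fin.snoc_castSucc (α := fun _ => ℕ) _ _ _

theorem RUN_gate {a n s : ℕ} (C : HCircuit a n s) : ∀ i : Fin (n + s),
    (∃ e : Fin n, ∀ x, C.val x i = x e) ∨
    ∃ (d : ℕ) (_ : d ≤ a) (J : Fin d → Fin (n + s)) (φ : (Fin d → Bool) → Bool),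
      (∀ j, J j < i) ∧ (∀ x, C.val x i = φ fun j => C.val x (J j)) ∧
        ((¬ Alt φ ∧ ∀ j, C.depth (J j) ≤ C.depth i) ∨
          (0 < C.depth i ∧ ∀ j, C.depth (J j) < C.depth i)) := by
  classical
  induction C with
  | nil =>
    intro i
    exact Or.inl ⟨i, fun x => rfl⟩
  | @snoc s d C hd w φ ih =>
    intro i
    refine Fin.lastCases (motive := fun i : Fin (n + s + 1) =>
      (∃ e : Fin n, ∀ x, (C.snoc hd w φ).val x i = x e) ∨
      ∃ (d' : ℕ) (_ : d' ≤ a) (J : Fin d' → Fin (n + s + 1)) (φ' : (Fin d' → Bool) → Bool),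
        (∀ j, J j < i) ∧ (∀ x, (C.snoc hd w φ).val x i = φ' fun j => (C.snoc hd w φ).val x (J j)) ∧
        ((¬ Alt φ' ∧ ∀ j, (C.snoc hd w φ).depth (J j) ≤ (C.snoc hd w φ).depth i) ∨
          (0 < (C.snoc hd w φ).depth i ∧
            ∀ j, (C.snoc hd w φ).depth (J j) < (C.snoc hd w φ).depth i))) ?_ (fun i => ?_) i
    · right
      refine ⟨d, hd, fun j => Fin.castSucc (w j), φ, fun j => Fin.castSucc_lt_last _, fun x => ?_, ?_⟩
      · rw [RUN_val_last]
        congr 1
        funext j
        rw [RUN_val_cast]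
      · have h1 : ∀ j, C.depth (w j) ≤ univ.sup fun j => C.depth (w j) := fun j =>
          le_sup (f := fun j => C.depth (w j)) (mem_univ j)
        by_cases hA : Alt φ
        · right
          rw [RUN_depth_last, if_pos hA]
          refine ⟨by omega, fun j => ?_⟩
          rw [RUN_depth_cast]
          have := h1 j
          omega
        · left
          refine ⟨hA, fun j => ?_⟩
          rw [RUN_depth_last, if_neg hA, RUN_depth_cast]
          exact h1 j
    · rcases ih i with ⟨e, he⟩ | ⟨d', hd', J, φ', h1, h2, h3⟩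
      · left
        refine ⟨e, fun x => ?_⟩
        rw [RUN_val_cast]
        exact he x
      · right
        refine ⟨d', hd', fun j => Fin.castSucc (J j), φ', fun j => ?_, fun x => ?_, ?_⟩
        · exact Fin.castSucc_lt_castSucc_iff.2 (h1 j)
        · rw [RUN_val_cast, h2 x]
          congr 1
          funext j
          rw [RUN_val_cast]
        · rw [RUN_depth_cast]
          rcases h3 with ⟨h3, h4⟩ | ⟨h3, h4⟩
          · left
            refine ⟨h3, fun j => ?_⟩
            rw [RUN_depth_cast]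
            exact h4 j
          · right
            refine ⟨h3, fun j => ?_⟩
            rw [RUN_depth_cast]
            exact h4 j

/-- row RUN -/
theorem RUN (hMF : MF_stmt) : RUN_stmt := by
  intro a M s t C hC
  refine ⟨hC.mono, hC.depth_le, fun i => ?_⟩
  rcases RUN_gate C i with ⟨e, he⟩ | ⟨d, hd, J, φ, h1, h2, h3⟩
  · exact Or.inl ⟨e, he⟩
  · right
    rcases h3 with ⟨h3, h4⟩ | ⟨h3, h4⟩
    · obtain ⟨φ', h5, h6⟩ := hMF φ (fun j x => C.val x (J j)) (fun x => C.val x i)
        (fun j => hC.mono (J j)) (hC.mono i) h2 h3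
      exact ⟨d, hd, J, φ', h1, h6, Or.inl ⟨h5, h4⟩⟩
    · exact ⟨d, hd, J, φ, h1, h2, Or.inr ⟨h3, h4⟩⟩

end Pool.Agent.HM
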