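import Pool.Agent.helper80.HM.SpecC

/-!
# HM, rows UNF, UPM
-/

set_option autoImplicit false

namespace Pool.Agent.HM

open Finset Pool.Agent.helper38.Neg Pool.Agent.helper55.NT

theorem UNF_mono {n : ℕ} {L L' : List (Fn n × ℕ)} (h : ∀ q, q ∈ L → q ∈ L') {p : Fn n × ℕ}
    (hp : OpH L p) : OpH L' p := by
  rcases hp with ⟨δ, h1, h2⟩ | h1
  · exact Or.inl ⟨δ, h1, h _ h2⟩
  · exact Or.inr h1

/-- a gate of fan-in two -/
theorem UNF_bin {a n t : ℕ} {L : List (Fn n × ℕ)} (u v : Fn n) (φ : Bool → Bool → Bool)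
    (hφ : ∀ b b' c c', b ≤ b' → c ≤ c' → φ b c ≤ φ b' c') (ha : 2 ≤ a) (hL : HSL a n t L)
    (hu : OpH L (u, 0)) (hv : OpH L (v, 0)) (hum : Monotone u) (hvm : Monotone v) :
    HSL a n t ((fun x => φ (u x) (v x), 0) :: L) := by
  refine HSL.gate (d := 2) _ (fun i => if i = 0 then (u, 0) else (v, 0))
    (fun w => φ (w 0) (w 1)) hL ha ?_ (fun x => by simp) ?_ (Nat.zero_le _) (Or.inl ⟨?_, ?_⟩)
  · intro j
    fin_cases j
    · exact hu
    · exact hv
  · intro x y hxy
    exact hφ _ _ _ _ (hum hxy) (hvm hxy)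
  · rintro ⟨x, y, w, z, h1, h2, h3, h4, h5, h6, h7⟩
    have h8 : φ (y 0) (y 1) ≤ φ (w 0) (w 1) := hφ _ _ _ _ (h2 0) (h2 1)
    simp only [] at h5 h6
    rw [h5, h6] at h8
    exact absurd h8 (by decide)
  · intro j
    fin_cases j <;> exact le_rfl

/-- row UNF -/
theorem UNF : UNF_stmt := by
  intro a n t s L C ha hL hC
  have key : ∃ L', HSL a n t L' ∧ L'.length ≤ L.length + s ∧ (∀ q, q ∈ L → q ∈ L') ∧
      ∀ o, OpH L' (fun x => C.val x o, 0) ∧ Monotone fun x => C.val x o := by
    induction C with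
    | nil =>
      refine ⟨L, hL, by omega, fun _ h => h, fun o => ⟨Or.inr ⟨o, rfl⟩, ?_⟩⟩
      intro x y hxy
      exact hxy o
    | @snoc s C g ih =>
      have hC' : C.notCount = 0 := by
        cases g with
        | const b => simpa [Circuit.notCount] using hC
        | and i j => simpa [Circuit.notCount] using hC
        | or i j => simpa [Circuit.notCount] using hC
        | not i => simp [Circuit.notCount] at hC
      obtain ⟨L', h1, h2, h3, h4⟩ := ih hC'
      -- the new gate
      have hg : ∃ G : Fn n, (∀ x, g.eval (C.val x) = G x) ∧ Monotone G ∧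
          HSL a n t ((G, 0) :: L') := by
        cases g with
        | const b =>
          refine ⟨fun _ => b, fun x => rfl, fun _ _ _ => le_rfl, ?_⟩
          refine HSL.gate (d := 0) _ (fun i => i.elim0) (fun _ => b) h1 (by omega)
            (fun j => j.elim0) (fun x => rfl) (fun _ _ _ => le_rfl) (Nat.zero_le _)
            (Or.inr fun j => j.elim0)
        | and i j =>
          refine ⟨fun x => C.val x i && C.val x j, fun x => rfl, ?_, ?_⟩
          · intro x y hxy
            have e1 := (h4 i).2 hxy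
            have e2 := (h4 j).2 hxy
            rw [Bool.le_iff_imp] at e1 e2 ⊢
            simp only [Bool.and_eq_true]
            exact fun h => ⟨e1 h.1, e2 h.2⟩
          · refine UNF_bin (fun x => C.val x i) (fun x => C.val x j) (fun b c => b && c) ?_ ha h1
              (h4 i).1 (h4 j).1 (h4 i).2 (h4 j).2
            decide
        | or i j =>
          refine ⟨fun x => C.val x i || C.val x j, fun x => rfl, ?_, ?_⟩
          · intro x y hxy
            have e1 := (h4 i).2 hxy
            have e2 := (h4 j).2 hxy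
            rw [Bool.le_iff_imp] at e1 e2 ⊢
            simp only [Bool.or_eq_true]
            exact fun h => h.imp e1 e2
          · refine UNF_bin (fun x => C.val x i) (fun x => C.val x j) (fun b c => b || c) ?_ ha h1
              (h4 i).1 (h4 j).1 (h4 i).2 (h4 j).2
            decide
        | not i => simp [Circuit.notCount] at hC
      obtain ⟨G, g1, g2, g3⟩ := hg
      refine ⟨(G, 0) :: L', g3, by simp only [List.length_cons]; omega,
        fun q hq => List.mem_cons_of_mem _ (h3 q hq), ?_⟩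
      intro o
      refine Fin.lastCases (motive := fun o : Fin (n + s + 1) =>
        OpH ((G, 0) :: L') (fun x => (C.snoc g).val x o, 0) ∧
          Monotone fun x => (C.snoc g).val x o) ?_ (fun o => ?_) o
      · have e1 : (fun x => (C.snoc g).val x (Fin.last (n + s))) = G := by
          funext x
          rw [Circuit.val, ← g1 x]
          exact Fin.snoc_last (α := fun _ => Bool) _ _
        rw [e1]
        exact ⟨Or.inl ⟨0, le_rfl, List.mem_cons_self⟩, g2⟩
      · have e1 : (fun x => (C.snoc g).val x (Fin.castSucc o)) = fun x => C.val x o := by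
          funext x
          rw [Circuit.val]
          exact Fin.snoc_castSucc (α := fun _ => Bool) _ _ _
        rw [e1]
        exact ⟨UNF_mono (fun q hq => List.mem_cons_of_mem _ hq) (h4 o).1, (h4 o).2⟩
  obtain ⟨L', h1, h2, h3, h4⟩ := key
  refine ⟨L', h1, h2, fun p hp => UNF_mono h3 hp, ?_⟩
  rintro p ⟨o, rfl⟩
  exact (h4 o).1

/-- row UPM -/
theorem UPM (hUAC : UAC_stmt) (hTRM : TRM_stmt) : UPM_stmt := by
  classical
  intro a n t s m f C o b hm ha hf hC hn
  have hb : 1 ≤ b := by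
    rcases Nat.eq_zero_or_pos b with rfl | h
    · omega
    · exact h
  have hex : ∃ r, n + 1 ≤ b * (m + 1) ^ r := ⟨t, hn⟩
  obtain ⟨r, hr⟩ : ∃ r, r = Nat.find hex := ⟨_, rfl⟩
  have hr1 : n + 1 ≤ b * (m + 1) ^ r := by rw [hr]; exact Nat.find_spec hex
  have hrt : r ≤ t := by rw [hr]; exact Nat.find_min' hex hn
  have hr2 : (m + 1) ^ r ≤ (m + 1) * (n + 1) := by
    rcases Nat.eq_zero_or_pos r with h | h
    · rw [h, pow_zero]
      exact Nat.mul_pos (Nat.succ_pos _) (Nat.succ_pos _)
    · have h1 : ¬ n + 1 ≤ b * (m + 1) ^ (r - 1) := by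
        refine Nat.find_min hex ?_
        rw [← hr]
        omega
      have h2 : (m + 1) ^ (r - 1) ≤ b * (m + 1) ^ (r - 1) := Nat.le_mul_of_pos_left _ hb
      have h3 : (m + 1) ^ r = (m + 1) * (m + 1) ^ (r - 1) := by
        rw [← pow_succ']
        congr 1
        omega
      rw [h3]
      exact Nat.mul_le_mul_left _ (by omega)
  obtain ⟨L, h1, h2, -, h4⟩ := hTRM (t := t) m f C o b r hm ha hf hC hb hrt hr1
  obtain ⟨C', h5, h6⟩ := hUAC h1
  obtain ⟨k, h7, -⟩ := h6 (f, r) (h4 _ rfl)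
  refine ⟨L.length, h2.trans ?_, C', k, h5, h7⟩
  rw [List.length_nil, zero_add]
  obtain ⟨y, hy⟩ : ∃ y, y = b * (n + 2) ^ (b + 2) := ⟨_, rfl⟩
  have hy1 : 1 ≤ y := by
    rw [hy]
    exact Nat.mul_pos hb (Nat.pos_of_ne_zero (by positivity))
  have e1 : (m + 1) ^ r * (4 * b * (s + 1) * (n + 2) ^ (b + 2)) ≤
      (m + 1) * (n + 1) * (4 * (s + 1) * y) := by
    have : 4 * b * (s + 1) * (n + 2) ^ (b + 2) = 4 * (s + 1) * y := by rw [hy]; ring
    rw [this]
    exact Nat.mul_le_mul_right _ hr2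
  have e2 : (n + 2) * (8 * b * (n + 2) ^ (b + 2)) = 8 * (n + 2) * y := by rw [hy]; ring
  have e3 : 18 * (m + 1) * b * (s + 1) * (n + 2) ^ (b + 3) =
      18 * (m + 1) * (s + 1) * (n + 2) * y := by
    rw [hy, show b + 3 = (b + 2) + 1 by ring, pow_succ]
    ring
  rw [e2, e3]
  have f1 : (m + 1) * (n + 1) * (4 * (s + 1) * y) ≤ 4 * ((m + 1) * (s + 1) * (n + 2) * y) := by
    calc (m + 1) * (n + 1) * (4 * (s + 1) * y) ≤ (m + 1) * (n + 2) * (4 * (s + 1) * y) :=
          Nat.mul_le_mul_right _ (Nat.mul_le_mul_left _ (by omega))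
      _ = 4 * ((m + 1) * (s + 1) * (n + 2) * y) := by ring
  have f2 : 8 * (n + 2) * y ≤ 8 * ((m + 1) * (s + 1) * (n + 2) * y) := by
    calc 8 * (n + 2) * y = 8 * (1 * ((n + 2) * y)) := by ring
      _ ≤ 8 * ((m + 1) * (s + 1) * ((n + 2) * y)) :=
          Nat.mul_le_mul_left _ (Nat.mul_le_mul_right _
            (Nat.mul_pos (Nat.succ_pos _) (Nat.succ_pos _)))
      _ = 8 * ((m + 1) * (s + 1) * (n + 2) * y) := by ring
  have f3 : (m + 1) ^ r ≤ (m + 1) * (s + 1) * (n + 2) * y := by
    refine hr2.trans ?_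
    calc (m + 1) * (n + 1) ≤ (m + 1) * (n + 2) := Nat.mul_le_mul_left _ (by omega)
      _ = (m + 1) * 1 * (n + 2) * 1 := by ring
      _ ≤ (m + 1) * (s + 1) * (n + 2) * y :=
          Nat.mul_le_mul (Nat.mul_le_mul_right _ (Nat.mul_le_mul_left _ (by omega))) hy1
  have f4 : 18 * (m + 1) * (s + 1) * (n + 2) * y = 18 * ((m + 1) * (s + 1) * (n + 2) * y) := by
    ring
  omega

end Pool.Agent.HM
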