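import Pool.Agent.helper80.HM.SpecB

/-!
# HM, row UNI
-/

set_option autoImplicit false

namespace Pool.Agent.HM

open Finset Pool.Agent.helper33.Mod

theorem UNI_cn_exists {M c S : ℕ} (P : Fin S → (Fin M → Fin c) → Prop) :
    cn (fun h => ∃ i, P i h) ≤ ∑ i, cn (P i) := by
  classical
  unfold cn
  rw [sum_comm]
  refine sum_le_sum fun h _ => ?_
  by_cases hh : ∃ i, P i h
  · obtain ⟨i, hi⟩ := hh
    rw [ind_true ⟨i, hi⟩]
    have h1 : ind (P i h) ≤ ∑ j, ind (P j h) :=
      single_le_sum (f := fun j => ind (P j h)) (fun j _ => ind_nonneg _) (mem_univ i)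
    rw [ind_true hi] at h1
    exact h1
  · rw [ind_false hh]
    exact sum_nonneg fun j _ => ind_nonneg _

/-- row UNI -/
theorem UNI : UNI_stmt := by
  classical
  intro M t S k c σ l L N g lv d V β F hloc
  have hET : (0 : ℝ) ≤ ET M c L N := by
    unfold ET
    positivity
  have htau : (0 : ℝ) ≤ tau t σ d := by
    unfold tau
    positivity
  constructor
  · have hneg : ∀ i, ∃ P : (Fin M → Fin c) → Prop, cn P ≤ ET M c L N ∧ (lv i ≤ d →
        ∀ h, (∀ j < i, lv j ≤ d → AccH l (F j) h → g j (orI (gV V h) β) = true) →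
          AccH l (F i) h → ¬ P h → g i (orI (gV V h) β) = true) := by
      intro i
      by_cases hi : lv i ≤ d
      · obtain ⟨P, h1, h2⟩ := (hloc i hi).neg
        exact ⟨P, h1, fun _ => h2⟩
      · refine ⟨fun _ => False, ?_, fun h => absurd h hi⟩
        rw [cn_eq_zero (fun _ h => h)]
        exact hET
    choose P hP1 hP2 using hneg
    have h1 : cn (fun h : Fin M → Fin c => ∃ i, lv i ≤ d ∧ AccH l (F i) h ∧
        g i (orI (gV V h) β) = false) ≤ cn (fun h => ∃ i, P i h) := by
      refine cn_mono fun h hh => ?_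
      by_contra hcon
      push Not at hcon
      have key : ∀ n : ℕ, ∀ i : Fin S, (i : ℕ) < n → lv i ≤ d → AccH l (F i) h →
          g i (orI (gV V h) β) = true := by
        intro n
        induction n with
        | zero => intro i hi; omega
        | succ n ih =>
          intro i hi hlv hA
          refine hP2 i hlv h (fun j hj hlj hAj => ih j ?_ hlj hAj) hA (hcon i)
          have h3 : (j : ℕ) < i := hj
          omega
      obtain ⟨i, hi1, hi2, hi3⟩ := hh
      rw [key (i + 1) i (by omega) hi1 hi2] at hi3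
      exact absurd hi3 (by simp)
    refine h1.trans ((UNI_cn_exists P).trans ?_)
    refine (sum_le_sum fun i _ => hP1 i).trans ?_
    rw [sum_const, card_univ, Fintype.card_fin, nsmul_eq_mul]
  · intro T hT hTc
    have hpos : ∀ i, ∃ X : Finset (Finset (Fin M)),
        (S : ℝ) * X.card ≤ tau t σ d * (KS k V T).card ∧ (lv i ≤ d →
        ∀ Q ∈ KS k V T, (∀ j < i, lv j ≤ d → g j (orI (gQ Q) β) = true → AccQ l (F j) Q) →
          g i (orI (gQ Q) β) = true → Q ∉ X → AccQ l (F i) Q) := by
      intro i
      by_cases hi : lv i ≤ d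
      · obtain ⟨X, h1, h2⟩ := (hloc i hi).pos T hT hTc
        exact ⟨X, h1, fun _ => h2⟩
      · refine ⟨∅, ?_, fun h => absurd h hi⟩
        rw [card_empty]
        push_cast
        rw [mul_zero]
        positivity
    choose X hX1 hX2 using hpos
    have h1 : (flt (KS k V T) fun Q => ∃ i, lv i ≤ d ∧ g i (orI (gQ Q) β) = true ∧
        ¬ AccQ l (F i) Q) ⊆ univ.biUnion X := by
      intro Q hQ
      obtain ⟨hQ1, i, hi1, hi2, hi3⟩ := mem_flt.1 hQ
      by_contra hcon
      have hcon' : ∀ j, Q ∉ X j := fun j hj => hcon (mem_biUnion.2 ⟨j, mem_univ _, hj⟩)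
      have key : ∀ n : ℕ, ∀ i : Fin S, (i : ℕ) < n → lv i ≤ d →
          g i (orI (gQ Q) β) = true → AccQ l (F i) Q := by
        intro n
        induction n with
        | zero => intro i hi; omega
        | succ n ih =>
          intro i hi hlv hA
          refine hX2 i hlv Q hQ1 (fun j hj hlj hAj => ih j ?_ hlj hAj) hA (hcon' i)
          have h3 : (j : ℕ) < i := hj
          omega
      exact hi3 (key (i + 1) i (by omega) hi1 hi2)
    by_cases hS : S = 0
    · subst hS
      have h2 : (flt (KS k V T) fun Q => ∃ i, lv i ≤ d ∧ g i (orI (gQ Q) β) = true ∧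
          ¬ AccQ l (F i) Q) = ∅ := by
        rw [eq_empty_iff_forall_notMem]
        intro Q hQ
        obtain ⟨-, i, -⟩ := mem_flt.1 hQ
        exact i.elim0
      rw [h2, card_empty]
      push_cast
      positivity
    · have hSR : (0 : ℝ) < S := by
        have : 0 < S := Nat.pos_of_ne_zero hS
        exact_mod_cast this
      have h2 : ((flt (KS k V T) fun Q => ∃ i, lv i ≤ d ∧ g i (orI (gQ Q) β) = true ∧
          ¬ AccQ l (F i) Q).card : ℝ) ≤ ∑ i, ((X i).card : ℝ) := by
        have h3 := (card_le_card h1).trans card_biUnion_le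
        exact_mod_cast h3
      have h4 : (S : ℝ) * ∑ i, ((X i).card : ℝ) ≤ S * (tau t σ d * (KS k V T).card) := by
        rw [mul_sum]
        refine (sum_le_sum fun i _ => hX1 i).trans ?_
        rw [sum_const, card_univ, Fintype.card_fin, nsmul_eq_mul]
      exact h2.trans (le_of_mul_le_mul_left h4 hSR)

end Pool.Agent.HM
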