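import Pool.Agent.helper80.HM.SpecC

/-!
# HM, rows USM, WIM
-/

set_option autoImplicit false

namespace Pool.Agent.HM

open Finset Pool.Agent.helper38.Neg Pool.Agent.helper55.NT

theorem WIM_wt_mono {n : ℕ} {x y : Fin n → Bool} (h : x ≤ y) : wt x ≤ wt y := by
  unfold wt
  refine card_le_card fun i hi => ?_
  rw [mem_filter] at hi ⊢
  exact ⟨mem_univ _, Bool.le_iff_imp.1 (h i) hi.2⟩

theorem WIM_wt_le {n : ℕ} (x : Fin n → Bool) : wt x ≤ n := by
  unfold wt
  exact (card_le_univ _).trans (by rw [Fintype.card_fin])

/-- row WIM -/
theorem WIM : WIM_stmt := by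
  classical
  intro n f hf
  have hTh : ∀ j, Monotone (Th (n := n) j) := by
    intro j x y hxy
    rw [Bool.le_iff_imp]
    unfold Th
    rw [decide_eq_true_iff, decide_eq_true_iff]
    exact fun h => h.trans (WIM_wt_mono hxy)
  refine ⟨?_, hTh, ?_, ?_, fun _ _ _ _ => rfl, ?_⟩
  · intro lo hi _ x y hxy
    rw [Bool.le_iff_imp]
    unfold Wn
    simp only [Bool.and_eq_true, Bool.or_eq_true, decide_eq_true_iff]
    have h1 := WIM_wt_mono hxy
    rintro ⟨h2, h3⟩
    refine ⟨h2.trans h1, ?_⟩
    rcases h3 with h3 | h3
    · exact Or.inl (h3.trans h1)
    · exact Or.inr (hf x y (fun i => Bool.le_iff_imp.1 (hxy i)) h3)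
  · intro m mid hmid x
    obtain ⟨j, hj⟩ : ∃ j, j = ((range m).filter fun i => Th (mid (i + 1)) x = true).card :=
      ⟨_, rfl⟩
    rw [← hj]
    have hjm : j ≤ m := by
      rw [hj]
      exact (card_filter_le _ _).trans (by rw [card_range])
    have hTt : ∀ i, Th (mid i) x = true ↔ mid i ≤ wt x := by
      intro i
      unfold Th
      rw [decide_eq_true_iff]
    -- the set is an initial segment
    have hseg : ∀ i < m, mid (i + 1) ≤ wt x ↔ i < j := by
      intro i hi
      constructor
      · intro h
        have h1 : range (i + 1) ⊆ (range m).filter fun i => Th (mid (i + 1)) x = true := by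
          intro i' hi'
          rw [mem_range] at hi'
          rw [mem_filter, mem_range]
          refine ⟨by omega, (hTt _).2 ((hmid (by omega)).trans h)⟩
        have h2 := card_le_card h1
        rw [card_range, ← hj] at h2
        omega
      · intro h
        by_contra hcon
        have h1 : ((range m).filter fun i => Th (mid (i + 1)) x = true) ⊆ range i := by
          intro i' hi'
          rw [mem_filter, mem_range] at hi'
          rw [mem_range]
          by_contra h2
          exact hcon ((hmid (by omega)).trans ((hTt _).1 hi'.2))
        have h2 := card_le_card h1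
        rw [card_range, ← hj] at h2
        omega
    have hlow : j = 0 ∨ mid j ≤ wt x := by
      rcases Nat.eq_zero_or_pos j with h | h
      · exact Or.inl h
      · right
        have h1 := (hseg (j - 1) (by omega)).2 (by omega)
        have h2 : j - 1 + 1 = j := by omega
        rwa [h2] at h1
    have hhigh : j = m ∨ wt x < mid (j + 1) := by
      rcases Nat.lt_or_ge j m with h | h
      · right
        by_contra h1
        have h2 := (hseg j h).1 (by omega)
        omega
      · left; omega
    have m0 : mid 0 ≤ mid j := hmid (by omega)
    have m1 : mid (j + 1) ≤ mid (m + 1) := hmid (by omega)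
    have e1 : decide (mid 0 ≤ wt x) = decide (mid j ≤ wt x) := by
      rcases hlow with h | h
      · rw [h]
      · rw [decide_eq_true h, decide_eq_true (m0.trans h)]
    have e2 : decide (mid (m + 1) ≤ wt x) = decide (mid (j + 1) ≤ wt x) := by
      rcases hhigh with h | h
      · rw [h]
      · rw [decide_eq_false (by omega : ¬ mid (m + 1) ≤ wt x),
          decide_eq_false (by omega : ¬ mid (j + 1) ≤ wt x)]
    unfold Wn
    rw [e1, e2]
  · intro hi hhi
    funext x
    have h1 := WIM_wt_le x
    unfold Wn
    rw [decide_eq_true (Nat.zero_le _), decide_eq_false (by omega : ¬ hi ≤ wt x)]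
    simp
  · intro j b x
    unfold Wn Th
    simp

/-- row USM -/
theorem USM : USM_stmt := by
  classical
  intro a n t δ m L T F f ha hL hT hF hδ hf hfx
  refine ⟨(f, δ + 1) :: L, ?_, by simp, ?_, ?_⟩
  · refine HSL.gate (d := 2 * m + 1) f
      (fun i => if (i : ℕ) < m then (T i, δ) else (F (i - m), δ))
      (fun w => if h : m + ((range m).filter fun i =>
        if h : i < 2 * m + 1 then w ⟨i, h⟩ = true else False).card < 2 * m + 1 then
          w ⟨m + ((range m).filter fun i =>
            if h : i < 2 * m + 1 then w ⟨i, h⟩ = true else False).card, h⟩ else false)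
      hL ha ?_ ?_ hf hδ (Or.inr ?_)
    · intro i
      by_cases hi : (i : ℕ) < m
      · simp only [hi, if_true]
        exact hT i hi
      · simp only [hi, if_false]
        exact hF _ (by have := i.2; omega)
    · intro x
      have h1 : ((range m).filter fun i => if h : i < 2 * m + 1 then
          (if i < m then (T i, δ) else (F (i - m), δ)).1 x = true else False) =
          (range m).filter fun i => T i x = true := by
        refine filter_congr fun i hi => ?_
        rw [mem_range] at hi
        have h2 : i < 2 * m + 1 := by omega
        simp only [h2, hi, if_true, dite_true]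
      rw [hfx]
      have h3 : ((range m).filter fun i => T i x = true).card ≤ m :=
        (card_filter_le _ _).trans (by rw [card_range])
      simp only []
      rw [dif_pos (by rw [h1]; omega)]
      simp only [h1]
      rw [if_neg (by omega)]
      simp
    · intro i
      by_cases hi : (i : ℕ) < m
      · simp only [hi, if_true]; exact le_rfl
      · simp only [hi, if_false]; exact le_rfl
  · rintro p (⟨δ', h1, h2⟩ | h)
    · exact Or.inl ⟨δ', h1, List.mem_cons_of_mem _ h2⟩
    · exact Or.inr h
  · rintro p rfl
    exact Or.inl ⟨δ + 1, le_rfl, List.mem_cons_self⟩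

end Pool.Agent.HM
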