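import Pool.Agent.helper10.HM.IN2
import Pool.Agent.helper13.HM.STG
import Pool.Agent.helper16.HM.GRD
import Pool.Agent.helper16.HM.KSZ
import Pool.Agent.helper16.HM.MKB
import Pool.Agent.helper16.HM.HCR
import Pool.Agent.helper18.HM.BKS
import Pool.Agent.helper18.HM.LIN
import Pool.Agent.helper31.HM.HCB
import Pool.Agent.helper31.HM.THR
import Pool.Agent.helper31.HM.UAC
import Pool.Agent.helper33.HM.COND
import Pool.Agent.helper33.HM.INJ
import Pool.Agent.helper33.HM.KEY
import Pool.Agent.helper33.HM.LMO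
import Pool.Agent.helper33.HM.TOP
import Pool.Agent.helper34.HM.EXP
import Pool.Agent.helper39.HM.STA
import Pool.Agent.helper46.HM.NUM
import Pool.Agent.helper52.HM.KSV
import Pool.Agent.helper52.HM.LAL
import Pool.Agent.helper63.HM.PAD
import Pool.Agent.helper67.HM.GBP
import Pool.Agent.helper72.HM.EET
import Pool.Agent.helper72.HM.SHN
import Pool.Agent.helper77.HM.GBK
import Pool.Agent.helper78.HM.MF
import Pool.Agent.helper80.HM.CLO
import Pool.Agent.helper80.HM.KSC
import Pool.Agent.helper80.HM.LEA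
import Pool.Agent.helper80.HM.NDM
import Pool.Agent.helper80.HM.REC
import Pool.Agent.helper80.HM.RS
import Pool.Agent.helper80.HM.RUN
import Pool.Agent.helper80.HM.UNF
import Pool.Agent.helper80.HM.UNI
import Pool.Agent.helper80.HM.WIM
import Pool.Agent.helper80.HM.HCX
import Pool.Agent.helper82.HM.AVO
import Pool.Agent.helper85.HM.TRM
import Pool.Agent.helper89.HM.HCM
import Pool.Agent.helper97.HM.ASM
import Pool.Agent.helper97.HM.AVG
import Pool.Agent.helper97.HM.BGR
import Pool.Agent.helper97.HM.CRM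
import Pool.Agent.helper97.HM.CRN
import Pool.Agent.helper99.HM.KCN
import Pool.Agent.helper99.HM.MKA

/-!
# Hereditarily monotone circuits: all rows together
-/

set_option autoImplicit false

namespace Pool.Agent.HM

theorem all_IN2 : IN2_stmt := IN2 RS
theorem all_PRD : PRD_stmt := PRD all_IN2
theorem all_COND : COND_stmt := COND all_IN2
theorem all_INJ : INJ_stmt := INJ all_IN2
theorem all_KSV : KSV_stmt := KSV KSC
theorem all_KSZ : KSZ_stmt := KSZ KSC
theorem all_AVO : AVO_stmt := AVO all_KSV
theorem all_AVG : AVG_stmt := AVG KSC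
theorem all_BKS : BKS_stmt := BKS all_AVO all_AVG
theorem all_GBP : GBP_stmt := GBP all_COND all_INJ EET
theorem all_STA : STA_stmt := STA RS
theorem all_STG : STG_stmt := STG all_PRD all_STA
theorem all_KCN : KCN_stmt := KCN RS all_STG
theorem all_KEY : KEY_stmt := KEY EET NDM GRD all_BKS GBK all_GBP all_KCN
theorem all_MKB : MKB_stmt := MKB all_KSZ
theorem all_LIN : LIN_stmt := LIN CLO EET
theorem all_LMO : LMO_stmt := LMO CLO EET NDM MKA all_MKB
theorem all_LAL : LAL_stmt := LAL CLO EET all_KEY
theorem all_ASM : ASM_stmt := ASM EET NDM LCG all_LIN all_LMO all_LAL REC UNI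
theorem all_TOP : TOP_stmt := TOP EET NDM BGR all_INJ
theorem all_RUN : RUN_stmt := RUN MF
theorem all_LBF : LBF_stmt := LBF NUM all_RUN all_ASM all_TOP
theorem all_LEA : LEA_stmt := LEA UNF WIM
theorem all_TRM : TRM_stmt := TRM USM WIM all_LEA
theorem all_UPM : UPM_stmt := UPM UAC all_TRM
theorem all_EXP : EXP_stmt := EXP SHN
theorem all_CRM : CRM_stmt := CRM all_UPM all_EXP
theorem all_CRN : CRN_stmt := CRN all_UPM all_EXP
theorem all_HCM : HCM_stmt := HCM HCB PAD all_LBF
theorem all_HCX : HCX_stmt := HCX PAD all_LBF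
theorem all_HCR : HCR_stmt := HCR all_HCM
theorem all_THR : THR_stmt := THR all_CRM all_HCM

end Pool.Agent.HM
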