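import Pool.Agent.helper80.HM.Defs

/-!
# Hereditarily monotone circuits (MP_069684): simple facts which every row may use
-/

set_option autoImplicit false

namespace Pool.Agent.HM

open Finset Pool.Agent.helper33.Mod

variable {M c k : ℕ}

open Classical in
/-- The truth value of a proposition. -/
noncomputable def bl (P : Prop) : Bool := if P then true else false

theorem bl_eq_true {P : Prop} : bl P = true ↔ P := by
  unfold bl
  split_ifs with h <;> simp [h]

theorem bl_eq_false {P : Prop} : bl P = false ↔ ¬ P := by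
  unfold bl
  split_ifs with h <;> simp [h]

theorem bl_mono {P Q : Prop} (h : P → Q) : bl P ≤ bl Q := by
  rw [Bool.le_iff_imp]
  intro hp
  exact bl_eq_true.2 (h (bl_eq_true.1 hp))

theorem mem_KS {V T Q : Finset (Fin M)} : Q ∈ KS k V T ↔ Q ⊆ V ∧ Q.card = k ∧ T ⊆ Q := by
  unfold KS
  rw [mem_filter, mem_powersetCard]
  tauto

theorem mem_Xt {X : Finset (Finset (Fin M))} {T Q : Finset (Fin M)} :
    Q ∈ Xt X T ↔ Q ∈ X ∧ T ⊆ Q := by
  unfold Xt
  rw [mem_filter]

theorem mem_Xb {X : Finset (Finset (Fin M))} {U T Q : Finset (Fin M)} :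
    Q ∈ Xb X U T ↔ Q ∈ X ∧ T ⊆ Q ∧ Q ⊆ U ∪ T := by
  unfold Xb
  rw [mem_filter]

theorem mix_mem {D : Finset (Fin M)} {h0 h : Fin M → Fin c} {v : Fin M} (hv : v ∈ D) :
    mix D h0 h v = h v := by
  unfold mix
  rw [if_pos hv]

theorem mix_not_mem {D : Finset (Fin M)} {h0 h : Fin M → Fin c} {v : Fin M} (hv : v ∉ D) :
    mix D h0 h v = h0 v := by
  unfold mix
  rw [if_neg hv]

theorem mix_mix (D1 D2 : Finset (Fin M)) (h0 h1 h2 : Fin M → Fin c) :
    mix D2 (mix D1 h0 h1) h2 = mix (D1 ∪ D2) h0 (mix D2 h1 h2) := by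
  funext v
  unfold mix
  by_cases h2' : v ∈ D2 <;> by_cases h1' : v ∈ D1 <;> simp [h1', h2']

theorem inj_congr {K : Finset (Fin M)} {h h' : Fin M → Fin c} (he : ∀ v ∈ K, h v = h' v) :
    Inj h K ↔ Inj h' K := by
  have h1 : Set.EqOn h h' (K : Set (Fin M)) := fun v hv => he v (by exact_mod_cast hv)
  unfold Inj
  exact h1.injOn_iff

theorem le_orI_left (x y : Inp M) : x ≤ orI x y := by
  intro i
  unfold orI
  exact Bool.left_le_or _ _

theorem le_orI_right (x y : Inp M) : y ≤ orI x y := by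
  intro i
  unfold orI
  exact Bool.right_le_or _ _

theorem orI_le {x y z : Inp M} (hx : x ≤ z) (hy : y ≤ z) : orI x y ≤ z := by
  intro i
  unfold orI
  have h1 := Bool.le_iff_imp.1 (hx i)
  have h2 := Bool.le_iff_imp.1 (hy i)
  rw [Bool.le_iff_imp]
  intro h
  rcases Bool.or_eq_true_iff.1 h with h | h
  · exact h1 h
  · exact h2 h

theorem orI_mono {x x' y y' : Inp M} (hx : x ≤ x') (hy : y ≤ y') : orI x y ≤ orI x' y' :=
  orI_le (hx.trans (le_orI_left _ _)) (hy.trans (le_orI_right _ _))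

theorem gV_le {V V' : Finset (Fin M)} {h h' : Fin M → Fin c} (hV : V ⊆ V')
    (he : ∀ v ∈ V, h v = h' v) : gV V h ≤ gV V' h' := by
  intro i
  unfold gV
  rw [Bool.le_iff_imp]
  simp only [decide_eq_true_eq]
  rintro ⟨h1, h2, h3⟩
  refine ⟨hV h1, hV h2, ?_⟩
  rw [← he _ h1, ← he _ h2]
  exact h3

theorem gV_congr {V : Finset (Fin M)} {h h' : Fin M → Fin c} (he : ∀ v ∈ V, h v = h' v) :
    gV V h = gV V h' :=
  le_antisymm (gV_le (Subset.refl _) he) (gV_le (Subset.refl _) fun v hv => (he v hv).symm)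

theorem gQ_le {Q Q' : Finset (Fin M)} (h : Q ⊆ Q') : gQ Q ≤ gQ Q' := by
  intro i
  unfold gQ
  rw [Bool.le_iff_imp]
  simp only [decide_eq_true_eq]
  rintro ⟨h1, h2, h3⟩
  exact ⟨h h1, h h2, h3⟩

theorem mono_false {m : Inp M → Bool} (hm : Monotone m) {x y : Inp M} (h : x ≤ y)
    (hy : m y = false) : m x = false := by
  have h1 := Bool.le_iff_imp.1 (hm h)
  by_contra h2
  rw [Bool.not_eq_false] at h2
  rw [h1 h2] at hy
  exact absurd hy (by simp)

theorem mono_true {m : Inp M → Bool} (hm : Monotone m) {x y : Inp M} (h : x ≤ y)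
    (hx : m x = true) : m y = true := Bool.le_iff_imp.1 (hm h) hx

theorem cn_le_pow (P : (Fin M → Fin c) → Prop) : cn P ≤ (c : ℝ) ^ M := by
  have h := cn_mono (P := P) (Q := fun _ => True) fun _ _ => trivial
  rw [cn_true, Fintype.card_fin] at h
  exact h

theorem cn_eq_zero {P : (Fin M → Fin c) → Prop} (h : ∀ x, ¬ P x) : cn P = 0 := by
  unfold cn
  exact sum_eq_zero fun x _ => ind_false (h x)

end Pool.Agent.HM
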