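import Pool.Agent.helper33.Mod.Circ
import Pool.Agent.helper55.NT.Win

/-!
# Hereditarily monotone circuits (MP_069684): definitions

Circuits whose gates are ARBITRARY Boolean functions of few wires and in which every gate computes
a monotone function of the inputs. The measure is the nesting depth of the alternating gates.
-/

set_option autoImplicit false

namespace Pool.Agent.HM

open Finset Pool.Agent.helper33.Mod

/-! ### The model -/

/-- `HCircuit a n s`: circuits with `n` inputs and `s` gates. The wires are the `n` inputs and then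
the `s` gates in their order. Each gate is an ARBITRARY Boolean function `φ` of `d ≤ a` wires, each
of them an input or an earlier gate. -/
inductive HCircuit (a n : ℕ) : ℕ → Type
  | nil : HCircuit a n 0
  | snoc {s d : ℕ} (C : HCircuit a n s) (hd : d ≤ a) (w : Fin d → Fin (n + s))
      (φ : (Fin d → Bool) → Bool) : HCircuit a n (s + 1)

/-- The values of all wires of a circuit on the input `x`. -/
def HCircuit.val {a n : ℕ} : {s : ℕ} → HCircuit a n s → (Fin n → Bool) → (Fin (n + s) → Bool)
  | _, HCircuit.nil, x => x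
  | _, HCircuit.snoc C _ w φ, x =>
      Fin.snoc (α := fun _ => Bool) (C.val x) (φ fun j => C.val x (w j))

/-- A gate function is alternating if it takes the values `0, 1, 0, 1` on some increasing
sequence of four points of its cube. -/
def Alt {d : ℕ} (φ : (Fin d → Bool) → Bool) : Prop :=
  ∃ u v w z : Fin d → Bool, u ≤ v ∧ v ≤ w ∧ w ≤ z ∧
    φ u = false ∧ φ v = true ∧ φ w = false ∧ φ z = true

open Classical in
/-- The nesting depth of the wires of a circuit: the largest number of alternating gates on a path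
from the inputs to the wire. -/
noncomputable def HCircuit.depth {a n : ℕ} : {s : ℕ} → HCircuit a n s → (Fin (n + s) → ℕ)
  | _, HCircuit.nil => fun _ => 0
  | _, HCircuit.snoc C _ w φ => Fin.snoc (α := fun _ => ℕ) C.depth
      ((univ.sup fun j => C.depth (w j)) + if Alt φ then 1 else 0)

/-- A hereditarily monotone circuit of nesting depth at most `t`: every wire computes a monotone
function of the inputs, and every path contains at most `t` alternating gates. -/
structure HerMono {a n s : ℕ} (C : HCircuit a n s) (t : ℕ) : Prop where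
  mono : ∀ i, Monotone fun x => C.val x i
  depth_le : ∀ i, C.depth i ≤ t

/-- Polynomial size hereditarily monotone circuits with gates of fan-in at most `a n` and nesting
depth at most `t n`. -/
def HMPoly (a t : ℕ → ℕ) (A : Pool.Agent.helper38.Neg.Lang) : Prop :=
  ∃ p : Polynomial ℕ, ∀ n, ∃ s ≤ p.eval n, ∃ (C : HCircuit (a n) n s) (o : Fin (n + s)),
    HerMono C (t n) ∧ ∀ x, C.val x o = true ↔ A n x

/-- `f` accepts every clique with `κ` vertices and rejects every complete `(κ - 1)`-partite graph
(some of the classes may be empty). -/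
def Separates (M κ : ℕ) (f : (Fin (M * M) → Bool) → Bool) : Prop :=
  (∀ Q : Finset (Fin M), Q.card = κ → f (gQ Q) = true) ∧
    ∀ h : Fin M → Fin (κ - 1), f (gH h) = false

/-! ### Tools for the lower bound -/

/-- Graphs, as inputs. -/
abbrev Inp (M : ℕ) : Type := Fin (M * M) → Bool

/-- The union of two graphs. -/
def orI {M : ℕ} (x y : Inp M) : Inp M := fun i => x i || y i

/-- The complete multipartite graph on the vertex set `V` with the classes of the colouring `h`. -/
def gV {M c : ℕ} (V : Finset (Fin M)) (h : Fin M → Fin c) : Inp M := fun i =>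
  decide ((finProdFinEquiv.symm i).1 ∈ V ∧ (finProdFinEquiv.symm i).2 ∈ V ∧
    h (finProdFinEquiv.symm i).1 ≠ h (finProdFinEquiv.symm i).2)

/-- The colours of `h` on `D` and those of `h0` outside `D`. -/
def mix {M c : ℕ} (D : Finset (Fin M)) (h0 h : Fin M → Fin c) : Fin M → Fin c :=
  fun v => if v ∈ D then h v else h0 v

/-- A property of colourings which depends on the colours of `D` only. -/
def Dep {M c : ℕ} (D : Finset (Fin M)) (P : (Fin M → Fin c) → Prop) : Prop :=
  ∀ h h', (∀ v ∈ D, h v = h' v) → (P h ↔ P h')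

open Classical in
/-- The members of `X` with the property `P`. -/
noncomputable def flt {α : Type} (X : Finset α) (P : α → Prop) : Finset α := X.filter P

theorem mem_flt {α : Type} {X : Finset α} {P : α → Prop} {q : α} : q ∈ flt X P ↔ q ∈ X ∧ P q := by
  classical
  unfold flt
  exact mem_filter

/-- The sets `Q` with `k` elements and `T ⊆ Q ⊆ V`. -/
def KS {M : ℕ} (k : ℕ) (V T : Finset (Fin M)) : Finset (Finset (Fin M)) :=
  (powersetCard k V).filter fun Q => T ⊆ Q

/-- The members of `X` which contain `T`. -/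
def Xt {M : ℕ} (X : Finset (Finset (Fin M))) (T : Finset (Fin M)) : Finset (Finset (Fin M)) :=
  X.filter fun Q => T ⊆ Q

/-- The members of `X` with `T ⊆ Q ⊆ U ∪ T`. -/
def Xb {M : ℕ} (X : Finset (Finset (Fin M))) (U T : Finset (Fin M)) : Finset (Finset (Fin M)) :=
  X.filter fun Q => T ⊆ Q ∧ Q ⊆ U ∪ T

/-- `S` wires with the functions `g i` and the levels `lv i ≤ t`: every wire is an input, or a
monotone function of earlier wires of the same or smaller levels, or an arbitrary function of
earlier wires of smaller levels; every `g i` is monotone. -/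
structure Run (M a t S : ℕ) (g : Fin S → Inp M → Bool) (lv : Fin S → ℕ) : Prop where
  mono : ∀ i, Monotone (g i)
  lv_le : ∀ i, lv i ≤ t
  step : ∀ i, (∃ e : Fin (M * M), ∀ x, g i x = x e) ∨
    ∃ (d : ℕ) (_ : d ≤ a) (J : Fin d → Fin S) (φ : (Fin d → Bool) → Bool),
      (∀ j, J j < i) ∧ (∀ x, g i x = φ fun j => g (J j) x) ∧
        ((Monotone φ ∧ ∀ j, lv (J j) ≤ lv i) ∨ (0 < lv i ∧ ∀ j, lv (J j) < lv i))

/-- The parameters. -/
structure Par (M a t S k c σ l L N : ℕ) : Prop where
  ha : 1 ≤ a
  hS : 1 ≤ S
  hσ : 2 * S ≤ 2 ^ σ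
  hl : l = 2 * (t + 1) ^ 2 * σ
  hL : L = (a + 1) * l
  hc : 16 * L ^ 2 ≤ c
  hk : c < k
  hN : 8 * S * (M + 1) ^ L * c ^ l ≤ 2 ^ N
  haN : a ≤ 2 ^ N

/-- The sizes `n_d`. -/
def nd (a k L N d : ℕ) : ℕ := 16 * L * N * k * (8 * k * a * N) ^ d

/-- The densities `τ_d = 2 ^ (-(1 + (t - d) σ))`. -/
noncomputable def tau (t σ d : ℕ) : ℝ := (1 / 2) ^ (1 + (t - d) * σ)

/-- The sizes `(t - d) t σ` of the fixed sets. -/
def Ld (t σ d : ℕ) : ℕ := (t - d) * (t * σ)

/-- The error for the colourings of one gate is `ET M c L N`. -/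
noncomputable def ET (M c L N : ℕ) : ℝ := (M + 1 : ℝ) ^ L * ((1 / 2) ^ N * (c : ℝ) ^ M)

/-- `B` is a closure of the property `Φ` of colourings. -/
structure Clos (M c L N : ℕ) (Φ : (Fin M → Fin c) → Prop) (B : Finset (Finset (Fin M))) :
    Prop where
  neg : cn (fun h => Acc B h ∧ ¬ Φ h) ≤ ET M c L N
  mem : ∀ K : Finset (Fin M), K.card ≤ L →
    cn (fun h : Fin M → Fin c => Inj h K ∧ ¬ Φ h ∧ ¬ Acc B h) ≤ (1 / 2) ^ N * (c : ℝ) ^ M → K ∈ B
  cl : Cl L N B

/-- The families `F i` approximate the wires of level at most `d` on the vertex set `V` over the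
background graph `β`. -/
structure AppF (M t S k c σ l L N : ℕ) (g : Fin S → Inp M → Bool) (lv : Fin S → ℕ) (d : ℕ)
    (V : Finset (Fin M)) (β : Inp M) (F : Fin S → Finset (Finset (Fin M))) : Prop where
  neg : cn (fun h : Fin M → Fin c => ∃ i, lv i ≤ d ∧ AccH l (F i) h ∧
    g i (orI (gV V h) β) = false) ≤ S * ET M c L N
  pos : ∀ T ⊆ V, T.card ≤ Ld t σ d →
    ((flt (KS k V T) fun Q => ∃ i, lv i ≤ d ∧ g i (orI (gQ Q) β) = true ∧
      ¬ AccQ l (F i) Q).card : ℝ) ≤ tau t σ d * (KS k V T).card

/-- Approximators for the wires of level at most `d` exist on all large vertex sets over all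
background graphs. -/
def App (M a t S k c σ l L N : ℕ) (g : Fin S → Inp M → Bool) (lv : Fin S → ℕ) (d : ℕ) : Prop :=
  ∀ V : Finset (Fin M), nd a k L N d ≤ V.card → ∀ β : Inp M,
    ∃ F : Fin S → Finset (Finset (Fin M)), AppF M t S k c σ l L N g lv d V β F

/-- The local correctness of the family of the wire `i` (of level at most `d`): outside `P` and `X`
the approximation is correct at `i` if it is correct at all earlier wires of level at most `d`. -/
structure Loc (M t S k c σ l L N : ℕ) (g : Fin S → Inp M → Bool) (lv : Fin S → ℕ) (d : ℕ)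
    (V : Finset (Fin M)) (β : Inp M) (F : Fin S → Finset (Finset (Fin M))) (i : Fin S) : Prop where
  neg : ∃ P : (Fin M → Fin c) → Prop, cn P ≤ ET M c L N ∧
    ∀ h, (∀ j < i, lv j ≤ d → AccH l (F j) h → g j (orI (gV V h) β) = true) →
      AccH l (F i) h → ¬ P h → g i (orI (gV V h) β) = true
  pos : ∀ T ⊆ V, T.card ≤ Ld t σ d → ∃ X : Finset (Finset (Fin M)),
    (S : ℝ) * X.card ≤ tau t σ d * (KS k V T).card ∧
      ∀ Q ∈ KS k V T, (∀ j < i, lv j ≤ d → g j (orI (gQ Q) β) = true → AccQ l (F j) Q) →
        g i (orI (gQ Q) β) = true → Q ∉ X → AccQ l (F i) Q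

end Pool.Agent.HM
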