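import Pool.Agent.helper80.HM.Basic

/-!
# Hereditarily monotone circuits (MP_069684): rows A (colourings, counting) and B (blocks)

Paper proof of the whole theorem: team-store MP_069684_helper80.md. Every row is independent: use
the statements of other rows as hypotheses (they are named in the docstring). The facts of
`Pool.Agent.helper80.HM.Basic` and of the library `Pool.Agent.helper33.Mod` (files Col, Closed, Gate,
Circ) may be used. All colourings are functions `Fin M → Fin c`; `cn P` is the number of colourings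
with the property `P` (a real number).
-/

set_option autoImplicit false

namespace Pool.Agent.HM

open Finset Pool.Agent.helper33.Mod

/-- ROW hm:RS (short). Resampling the colours of `D`.
PROOF. The map `(h0, h) ↦ (mix D h0 h, mix D h h0)` is an involution of the set of pairs, so
`∑ h0, ∑ h, ind (P (mix D h0 h)) = ∑ h0, ∑ h, ind (P h0) = c ^ M * cn P` (as in `sum_resample`). -/
def RS_stmt : Prop := ∀ {M c : ℕ} (D : Finset (Fin M)) (P : (Fin M → Fin c) → Prop),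
  ∑ h0 : Fin M → Fin c, cn (fun h => P (mix D h0 h)) = (c : ℝ) ^ M * cn P

/-- ROW hm:IN2 (short, from RS). Independence.
PROOF. RS for the property `P ∧ Q`: `P (mix D h0 h) ↔ P h` and `Q (mix D h0 h) ↔ Q h0`, so the left side of
RS is `∑ h0, ind (Q h0) * cn P = cn Q * cn P`. -/
def IN2_stmt : Prop := ∀ {M c : ℕ} (D : Finset (Fin M)) (P Q : (Fin M → Fin c) → Prop),
  Dep D P → Dep Dᶜ Q → (c : ℝ) ^ M * cn (fun h => P h ∧ Q h) = cn P * cn Q

/-- ROW hm:PRD (short, from IN2). Disjoint blocks are independent.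
PROOF. Induction on `N`. `∀ b < N + 1, P b h` is `P N h ∧ ∀ b < N, P b h`; the first depends on `U N`, the
second on `(U N)ᶜ` (the blocks `U b`, `b < N`, are disjoint from `U N`). IN2 and `c ^ M > 0`. -/
def PRD_stmt : Prop := ∀ {M c : ℕ} (U : ℕ → Finset (Fin M)) (P : ℕ → (Fin M → Fin c) → Prop) (N : ℕ),
  0 < c → (∀ i < N, ∀ j < N, i ≠ j → Disjoint (U i) (U j)) → (∀ b < N, Dep (U b) (P b)) →
  (∀ b < N, cn (P b) ≤ 1 / 4 * (c : ℝ) ^ M) →
  cn (fun h => ∀ b < N, P b h) ≤ (1 / 4) ^ N * (c : ℝ) ^ M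

/-- ROW hm:COND (short-medium, from IN2). Fixing the colours of `T` costs at most the factor `c ^ |T|`.
PROOF. `E h := ∀ v ∈ T, h v = h0 v` depends on `T`, `R h := P (mix U h0 h)` depends on `U ⊆ Tᶜ`. `cn E =
c ^ (M - |T|)`, i.e. `c ^ |T| * cn E = c ^ M` (count the functions; e.g. RS-like bijection, or induction on
`T`, or `Fintype.card` of the functions with prescribed values on `T`). If `E h` and `R h` then `P h`
(`h` and `mix U h0 h` agree on `U ∪ T`), so `cn P ≥ cn (E ∧ R) = cn E * cn R / c ^ M = cn R / c ^ |T|`. -/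
def COND_stmt : Prop := ∀ {M c : ℕ} (U T : Finset (Fin M)) (P : (Fin M → Fin c) → Prop)
  (h0 : Fin M → Fin c), 0 < c → Disjoint U T → Dep (U ∪ T) P →
  cn (fun h => P (mix U h0 h)) ≤ (c : ℝ) ^ T.card * cn P

/-- ROW hm:INJ (medium, from IN2). A random colouring of `U` extends an injective colouring of `T`
injectively to a small set `K ⊆ U ∪ T` with high probability.
PROOF. `Y := K \ T ⊆ U`, `E h := ∀ v ∈ T, h v = h0 v`, `R h := Inj (mix U h0 h) (T ∪ Y)`. `inj_extend` (library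
Col) with `U := T` and `Ψ h := ind (E h)` (`E h → Inj h T`) gives
`(1 - |T ∪ Y|² / (2c)) * cn E ≤ ∑ ind (E h) * ind (Inj h (T ∪ Y)) = cn (E ∧ R)` (on `E`, `h` agrees with
`mix U h0 h` on `T ∪ Y`). By IN2 `cn (E ∧ R) * c ^ M = cn E * cn R`, and `cn E > 0` (`h0` satisfies `E`), so
`cn R ≥ (1 - |T ∪ Y|²/(2c)) c ^ M`. Now `¬ Inj (mix U h0 h) K → ¬ R h` and `T ∪ Y = K ∪ T`. -/
def INJ_stmt : Prop := ∀ {M c : ℕ} (U T K : Finset (Fin M)) (h0 : Fin M → Fin c),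
  0 < c → Disjoint U T → K ⊆ U ∪ T → Inj h0 T →
  cn (fun h => ¬ Inj (mix U h0 h) K) ≤ ((K ∪ T).card : ℝ) ^ 2 / (2 * c) * (c : ℝ) ^ M

/-- ROW hm:KSC (short). PROOF. `Q ↦ Q \ T` is a bijection from `KS k V T` to
`powersetCard (k - |T|) (V \ T)` (inverse `R ↦ R ∪ T`). -/
def KSC_stmt : Prop := ∀ {M k : ℕ} (V T : Finset (Fin M)), T ⊆ V → T.card ≤ k →
  (KS k V T).card = (V.card - T.card).choose (k - T.card)

/-- ROW hm:KSV (short, from KSC). PROOF. If `|T| ≥ k` then the left side is `0` (a set with `k` elements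
contains no set with `k + 1` elements). Otherwise with `n = |V| - |T| ≥ 1`, `j = k - |T| ≥ 1`:
`(n - 1).choose (j - 1) * n = n.choose j * j` and `j ≤ k`. -/
def KSV_stmt : Prop := ∀ {M k : ℕ} (V T : Finset (Fin M)) (v : Fin M), T ⊆ V → v ∈ V → v ∉ T →
  (KS k V (insert v T)).card * (V.card - T.card) ≤ k * (KS k V T).card

/-- ROW hm:KSZ (short-medium, from KSC). PROOF. `|T| + |Z| > k`: the left side is `0`. Otherwise KSC twice,
`choose_bound` (library Gate) with `M := |V| - |T|`, `k := k - |T|`, `z := |Z|` (if `|V| - |T| = 0` then `Z`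
is empty), and `(k - |T|) / (|V| - |T|) ≤ k / |V|`. -/
def KSZ_stmt : Prop := ∀ {M k : ℕ} (V T Z : Finset (Fin M)), T ⊆ V → Z ⊆ V → Disjoint T Z →
  T.card ≤ k → k ≤ V.card →
  ((KS k V (T ∪ Z)).card : ℝ) ≤ ((k : ℝ) / V.card) ^ Z.card * (KS k V T).card

/-- ROW hm:GRD (medium). The greedy choice of `T`.
PROOF. Among the `T` with `T0 ⊆ T ⊆ V` and `2 ^ (|T| - |T0|) (1/2)^r |KS k V T| < |Xt X T|` (such as `T0`, since
`Xt X T0 = X`) choose one with the largest number of elements. Since `Xt X T ⊆ KS k V T` (every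
member of `X` is a `k`-subset of `V`), `2 ^ (|T| - |T0|) (1/2)^r < 1`, so `|T| - |T0| < r` or the case is
impossible; in any case `|T| ≤ |T0| + r`. For `v ∈ V \ T` the set `insert v T` does not qualify:
`|Xt X (insert v T)| ≤ 2 * 2^(|T|-|T0|) (1/2)^r |KS k V (insert v T)|`; multiply by `|KS k V T|`. -/
def GRD_stmt : Prop := ∀ {M k : ℕ} (V T0 : Finset (Fin M)) (X : Finset (Finset (Fin M))) (r : ℕ),
  T0 ⊆ V → X ⊆ KS k V T0 → (1 / 2 : ℝ) ^ r * (KS k V T0).card < X.card →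
  ∃ T, T0 ⊆ T ∧ T ⊆ V ∧ T.card ≤ T0.card + r ∧ (1 / 2 : ℝ) ^ r * (KS k V T).card < (Xt X T).card ∧
    ∀ v ∈ V \ T, ((Xt X (insert v T)).card : ℝ) * (KS k V T).card ≤
      2 * ((Xt X T).card * (KS k V (insert v T)).card)

/-- ROW hm:AVO (short-medium, from KSV). Half of the members of `X` avoid `R`.
PROOF. The members of `X` which meet `R` lie in the union over `v ∈ R` of `Xt X (insert v T)` (`T ⊆ Q` for
`Q ∈ X`). If `X` is empty or `R` is empty the claim is clear; otherwise `|KS k V T| ≥ |X| > 0`,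
`|V| - |T| > 0` and for `v ∈ R`: `|Xt X (insert v T)| ≤ 2 |X| |KS k V (insert v T)| / |KS k V T| ≤
2 |X| k / (|V| - |T|)` by KSV. The sum over `R` is at most `2 k |R| |X| / (|V| - |T|) ≤ |X| / 2`. -/
def AVO_stmt : Prop := ∀ {M k : ℕ} (V T R : Finset (Fin M)) (X : Finset (Finset (Fin M))),
  T ⊆ V → R ⊆ V \ T → X ⊆ KS k V T → 4 * k * R.card ≤ V.card - T.card →
  (∀ v ∈ V \ T, ((Xt X (insert v T)).card : ℝ) * (KS k V T).card ≤
    2 * (X.card * (KS k V (insert v T)).card)) →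
  (X.card : ℝ) ≤ 2 * (flt X fun Q => Disjoint Q R).card

/-- ROW hm:AVG (medium, from KSC). Averaging over the blocks.
PROOF. Suppose `|Xb X U T| ≤ τ |KS k (U ∪ T) T|` for all `U ∈ powersetCard n' W`. Sum over `U`. With
`j = k - |T| ≤ n'`: right side `τ C(|W|, n') C(n', j)` (KSC with `V := U ∪ T`, `|U ∪ T| = n' + |T|`). Left side
`∑_{Q ∈ X} card {U : Q \ T ⊆ U ⊆ W, |U| = n'} = |X| C(|W| - j, n' - j)` (the sets `U` are `Q \ T` plus a subset of
`W \ Q` with `n' - j` elements; `|Q \ T| = j`). `C(|W|, n') C(n', j) = C(|W|, j) C(|W| - j, n' - j)`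
(`Nat.choose_mul`), `C(|W|, j) = |KS k (W ∪ T) T|` (KSC), and `C(|W| - j, n' - j) > 0`. So
`|X| ≤ τ |KS k (W ∪ T) T|`, a contradiction. -/
def AVG_stmt : Prop := ∀ {M k : ℕ} (W T : Finset (Fin M)) (X : Finset (Finset (Fin M))) (n' : ℕ) (τ : ℝ),
  Disjoint W T → T.card ≤ k → k ≤ n' + T.card → n' ≤ W.card → X ⊆ KS k (W ∪ T) T →
  τ * (KS k (W ∪ T) T).card < X.card →
  ∃ U ⊆ W, U.card = n' ∧ τ * (KS k (U ∪ T) T).card < (Xb X U T).card

/-- ROW hm:BKS (medium, from AVO, AVG). Many disjoint good blocks.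
PROOF. Induction on `m' ≤ m`: blocks `U 0, .., U (m' - 1)` are chosen, `R` is their union, `|R| = m' n'`. AVO
gives `X' := flt X (Disjoint · R)` with `2 |X'| ≥ |X| > 2 τ |KS k V T|`. With `W := (V \ T) \ R`: `X' ⊆
KS k (W ∪ T) T` and `|KS k (W ∪ T) T| ≤ |KS k V T|` (a subset), `|W| = |V| - |T| - m' n' ≥ n'`, so AVG (`0 ≤ τ`)
gives the next block in `W` (disjoint from the former ones), and `Xb X' U T ⊆ Xb X U T`. -/
def BKS_stmt : Prop := ∀ {M k : ℕ} (V T : Finset (Fin M)) (X : Finset (Finset (Fin M))) (n' m : ℕ) (τ : ℝ),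
  T ⊆ V → X ⊆ KS k V T → 0 ≤ τ → T.card ≤ k → k ≤ n' + T.card →
  4 * k * (m * n') ≤ V.card - T.card → (m + 1) * n' + T.card ≤ V.card →
  (∀ v ∈ V \ T, ((Xt X (insert v T)).card : ℝ) * (KS k V T).card ≤
    2 * (X.card * (KS k V (insert v T)).card)) →
  2 * τ * (KS k V T).card < X.card →
  ∃ U : ℕ → Finset (Fin M),
    (∀ b < m, U b ⊆ V \ T ∧ (U b).card = n' ∧ τ * (KS k (U b ∪ T) T).card < (Xb X (U b) T).card) ∧
    ∀ b < m, ∀ b' < m, b ≠ b' → Disjoint (U b) (U b')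

/-- ROW hm:EET (short). Arithmetic of the parameters.
PROOF. `S * ET = S (M+1)^L (1/2)^N c^M` and `8 S (M+1)^L c^l ≤ 2^N`, `c^|T| ≤ c^l` (`c ≥ 16 L^2 ≥ 1`, since `l ≥ 2`
and `L ≥ l`). `L ≥ 2 l` (`a ≥ 1`), so `(2 l)^2 ≤ L^2 ≤ c / 16`. `Ld t σ d ≤ t * (t * σ)` and `l = 2 (t+1)^2 σ`.
`l ≥ 2` since `σ ≥ 1` (`2 ≤ 2 S ≤ 2 ^ σ`). `2 S (1/2)^(1 + (t - d) σ) ≤ ..` from `2 S ≤ 2 ^ σ` and
`(t - d) = (t - (d + 1)) + 1`. `S (1/4)^l ≤ (1/2)^(1 + (t-d) σ)`: `S ≤ 2^(σ - 1)`, `(t - d + 1) σ ≤ 2 l`. -/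
def EET_stmt : Prop := ∀ {M a t S k c σ l L N : ℕ}, Par M a t S k c σ l L N →
  (∀ z : ℕ, z ≤ l → (c : ℝ) ^ z * (S * ET M c L N) ≤ 1 / 8 * (c : ℝ) ^ M) ∧
  (2 * (l : ℝ)) ^ 2 / (2 * c) ≤ 1 / 8 ∧ 0 < c ∧ L < k ∧ 2 ≤ l ∧ 2 * l ≤ L ∧ 3 ≤ N ∧ 1 ≤ σ ∧
  (∀ d, 2 * Ld t σ d ≤ l) ∧ (∀ d, d + 1 ≤ t → Ld t σ (d + 1) + t * σ = Ld t σ d) ∧
  (∀ d, d + 1 ≤ t → (S : ℝ) * (2 * tau t σ d) ≤ tau t σ (d + 1)) ∧
  (∀ d, (S : ℝ) * (1 / 4) ^ l ≤ tau t σ d) ∧ (∀ d, 2 * tau t σ d ≤ 1)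

/-- ROW hm:NDM (short). The sizes `n_d`. PROOF. `n_(d+1) = 8 k a N n_d`; `k, a, N, L ≥ 1` (EET). For the last
two: `4 k (a N n_d) = n_(d+1) / 2` and `l ≤ L ≤ n_d`, `(a N + 1) n_d + l ≤ (a N + 2) n_d ≤ 4 k a N n_d`. -/
def NDM_stmt : Prop := ∀ {M a t S k c σ l L N : ℕ}, Par M a t S k c σ l L N → EET_stmt →
  (∀ d, nd a k L N d ≤ nd a k L N (d + 1)) ∧ (∀ d, nd a k L N 0 ≤ nd a k L N d) ∧
  (∀ d, k + l ≤ nd a k L N d) ∧
  (∀ d (v T : ℕ), nd a k L N (d + 1) ≤ v → T ≤ l →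
    4 * k * (a * N * (nd a k L N d - T)) ≤ v - T ∧ (a * N + 1) * (nd a k L N d - T) + T ≤ v)

/-- ROW hm:GBK (medium). A non exceptional clique in a block.
PROOF. The exceptional `Q ∈ KS k V' T` of `AppF.pos` are at most `τ_d |KS k V' T| < |X|`, so some `Q ∈ X` is not
exceptional. `m (orI (gQ Q) β) = true` and `β ≤ β'` give `m (orI (gQ Q) β') = true`, while `m β' = false`. Since
`m x = φ (g (J j) x)`, some `j` has `g (J j) (orI (gQ Q) β') ≠ g (J j) β'`, so `g (J j) β' = false` and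
`g (J j) (orI (gQ Q) β') = true` (`Run.mono`). As `Q` is not exceptional and `lv (J j) ≤ d`, `AccQ l (F (J j)) Q`. -/
def GBK_stmt : Prop := ∀ {M a t S k c σ l L N : ℕ} {g : Fin S → Inp M → Bool} {lv : Fin S → ℕ}
  (d : ℕ) (V' T : Finset (Fin M)) (β β' : Inp M) (F : Fin S → Finset (Finset (Fin M)))
  {r : ℕ} (J : Fin r → Fin S) (φ : (Fin r → Bool) → Bool) (m : Inp M → Bool)
  (X : Finset (Finset (Fin M))),
  Run M a t S g lv → AppF M t S k c σ l L N g lv d V' β' F → T ⊆ V' → T.card ≤ Ld t σ d →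
  (∀ x, m x = φ fun j => g (J j) x) → Monotone m → (∀ j, lv (J j) ≤ d) → β ≤ β' → m β' = false →
  X ⊆ KS k V' T → (∀ Q ∈ X, m (orI (gQ Q) β) = true) → tau t σ d * (KS k V' T).card < X.card →
  ∃ j, g (J j) β' = false ∧ ∃ K ∈ F (J j), K.card ≤ l ∧ K ⊆ V'

/-- ROW hm:GBP (medium, from COND, INJ, EET). A random colouring of a block flips `g i`.
PROOF. `P h := Inj h K ∧ g i (orI (gV (U ∪ T) h) β') = false` depends on `U ∪ T` (`K ⊆ U ∪ T`, `gV_congr`), and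
`P h` implies the event of `AppF.neg` (`AccH l (F i) h` by `K`), so `cn P ≤ S * ET`. The event in question
implies `¬ Inj (mix U h0 h) K` or `P (mix U h0 h)`. By INJ (`|K ∪ T| ≤ 2 l`) and COND, EET its
number is at most `(1/8 + 1/8) c ^ M`. -/
def GBP_stmt : Prop := ∀ {M a t S k c σ l L N : ℕ} {g : Fin S → Inp M → Bool} {lv : Fin S → ℕ}
  (d : ℕ) (U T K : Finset (Fin M)) (β' : Inp M) (F : Fin S → Finset (Finset (Fin M))) (i : Fin S)
  (h0 : Fin M → Fin c),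
  Par M a t S k c σ l L N → AppF M t S k c σ l L N g lv d (U ∪ T) β' F → Disjoint U T →
  T.card ≤ l → lv i ≤ d → K ∈ F i → K.card ≤ l → K ⊆ U ∪ T → Inj h0 T →
  cn (fun h => g i (orI (gV (U ∪ T) (mix U h0 h)) β') = false) ≤ 1 / 4 * (c : ℝ) ^ M

/-- ROW hm:STA (short-medium, from RS). One stage, in the abstract.
PROOF. `cn P ≤ cn Bad + cn (P ∧ ¬ Bad)` (`cn_split`). By RS (`D := D2`) `c ^ M * cn (P ∧ ¬ Bad) =
∑ h1, cn (fun h2 => P (mix D2 h1 h2) ∧ ¬ Bad (mix D2 h1 h2))`, and `Bad (mix D2 h1 h2) ↔ Bad h1` (`D1`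
and `D2` are disjoint). A summand with `Bad h1` is `0`, the others are at most `ε`; there are `c ^ M`
summands. Divide by `c ^ M > 0`. -/
def STA_stmt : Prop := ∀ {M c : ℕ} (D1 D2 : Finset (Fin M)) (P Bad : (Fin M → Fin c) → Prop) (ε : ℝ),
  0 < c → 0 ≤ ε → Disjoint D1 D2 → Dep D1 Bad →
  (∀ h1, ¬ Bad h1 → cn (fun h2 => P (mix D2 h1 h2)) ≤ ε) → cn P ≤ cn Bad + ε

/-- The union of the blocks of the first `z` groups of `N` blocks. -/
def DD {M : ℕ} (U : ℕ → ℕ → Finset (Fin M)) (z N : ℕ) : Finset (Fin M) :=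
  (range z).biUnion fun i => (range N).biUnion fun b => U i b

/-- The blocks `U i b` (`i < z`, `b < N`) lie in `V`, are disjoint from `T` and from each other. -/
structure Blk {M : ℕ} (V T : Finset (Fin M)) (U : ℕ → ℕ → Finset (Fin M)) (z N : ℕ) : Prop where
  sub : ∀ i < z, ∀ b < N, U i b ⊆ V
  dis : ∀ i < z, ∀ b < N, Disjoint (U i b) T
  prs : ∀ i < z, ∀ b < N, ∀ i' < z, ∀ b' < N, (i, b) ≠ (i', b') → Disjoint (U i b) (U i' b')

/-- Every block is good: over every background on which `m` is still `false` some `g j` flips with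
probability at least `3 / 4` when the block is coloured at random. -/
def Good {M : ℕ} (c : ℕ) {r : ℕ} (g : Fin r → Inp M → Bool) (m : Inp M → Bool) (T : Finset (Fin M))
    (β : Inp M) (B : Finset (Fin M)) : Prop :=
  ∀ h0 : Fin M → Fin c, Inj h0 T → ∀ β', β ≤ β' → m β' = false →
    ∃ j, g j β' = false ∧
      cn (fun h => g j (orI (gV (B ∪ T) (mix B h0 h)) β') = false) ≤ 1 / 4 * (c : ℝ) ^ M

/-- ROW hm:STG (medium-long, from PRD, STA). The stages.
PROOF. Induction on `z` (for all `h0`, `β'`). Let `P h := m (orI (gV V (mix (DD U z N) h0 h)) β') = false`. If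
`m β' = true` then `P` never holds (`Monotone m`), `cn P = 0`. If `z = 0` then all `g j β' = true`, so
`m β' = true` by the hypothesis on `m`. Otherwise `z = z' + 1`, `m β' = false`; group `z'`: for `b < N` choose `j_b` by
`Good` (for `h0`, `β'`) with `B := U z' b`. `Bad h := ∀ b < N, g (j_b) (orI (gV (U z' b ∪ T) (mix (U z' b) h0 h)) β') =
false`; PRD: `cn Bad ≤ (1/4)^N c^M`. `D1 := (range N).biUnion (U z')`, `D2 := DD U z' N`, disjoint; `Dep D1 Bad`. Let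
`¬ Bad h1`: some `b < N` with `g (j_b) β'' = true` where `β'' := orI (gV (U z' b ∪ T) (mix (U z' b) h0 h1)) β' ≥ β'`. The
number of `j` with `g j β'' = false` is at most `z'` (all `g j` are monotone, `j_b` flipped). Induction
hypothesis for `h0' := mix D1 h0 h1` (equal to `h0` on `T`, so `Inj h0' T`) and `β''`. By `mix_mix`
`mix D2 h0' h2 = mix (D1 ∪ D2) h0 (mix D2 h1 h2)`, `D1 ∪ D2 = DD U (z'+1) N`; and
`gV (U z' b ∪ T) (mix (U z' b) h0 h1) ≤ gV V (mix D2 h0' h2)` (`gV_le`: on `U z' b` both colours are `h1`, on `T` both are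
`h0`), so `orI (gV V (mix D2 h0' h2)) β'' ≤ orI (gV V (mix (DD U (z'+1) N) h0 (mix D2 h1 h2))) β'`, so
`P (mix D2 h1 h2)` implies `m (orI (gV V (mix D2 h0' h2)) β'') = false`. STA with `ε = z' (1/4)^N c^M`. -/
def STG_stmt : Prop := ∀ {M c r N : ℕ} (g : Fin r → Inp M → Bool) (m : Inp M → Bool)
  (V T : Finset (Fin M)) (U : ℕ → ℕ → Finset (Fin M)) (β : Inp M) (z : ℕ),
  0 < c → (∀ j, Monotone (g j)) → Monotone m →
  (∀ β', β ≤ β' → (∀ j, g j β' = true) → m β' = true) → T ⊆ V → Blk V T U z N →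
  (∀ i < z, ∀ b < N, Good c g m T β (U i b)) →
  ∀ h0 : Fin M → Fin c, Inj h0 T → ∀ β', β ≤ β' → (univ.filter fun j => g j β' = false).card ≤ z →
    cn (fun h => m (orI (gV V (mix (DD U z N) h0 h)) β') = false) ≤ z * ((1 / 4) ^ N * (c : ℝ) ^ M)

/-- ROW hm:KCN (short-medium, from STG, RS).
PROOF. RS with `D := DD U a N`: `c ^ M * cn P = ∑ h0, cn (fun h => P (mix D h0 h))` for `P h := Inj h T ∧
m (orI (gV V h) β) = false`. `P (mix D h0 h)` implies `Inj h0 T` (`D` is disjoint from `T`); if `Inj h0 T` STG (`z = a`,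
`β' = β`; at most `r ≤ a` indices) bounds the summand by `a (1/4)^N c^M ≤ (1/2)^N c^M` (`a ≤ 2^N`). -/
def KCN_stmt : Prop := ∀ {M c r a N : ℕ} (g : Fin r → Inp M → Bool) (m : Inp M → Bool)
  (V T : Finset (Fin M)) (U : ℕ → ℕ → Finset (Fin M)) (β : Inp M),
  0 < c → r ≤ a → a ≤ 2 ^ N → (∀ j, Monotone (g j)) → Monotone m →
  (∀ β', β ≤ β' → (∀ j, g j β' = true) → m β' = true) → T ⊆ V → Blk V T U a N →
  (∀ i < a, ∀ b < N, Good c g m T β (U i b)) →
  cn (fun h : Fin M → Fin c => Inj h T ∧ m (orI (gV V h) β) = false) ≤ (1 / 2) ^ N * (c : ℝ) ^ M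

/-- ROW hm:KEY (long, from EET, NDM, GRD, BKS, GBK, GBP, KCN). The key lemma.
PROOF. Let `X := flt (KS k V T0) ..` be the set of the statement and suppose `|X| > 2 τ_d |KS k V T0|`. Here `2 τ_d =
(1/2)^((t-d) σ)`. GRD with `r := (t - d) σ ≤ t σ` gives `T`; `|T| ≤ Ld t σ (d+1) + t σ = Ld t σ d`, so `2 |T| ≤ l` (EET),
`|T| ≤ k`. `X1 := Xt X T ⊆ KS k V T` (the members of `X` are in `KS k V T0`), nonempty. BKS for `X1` (`Xt X1
(insert v T) = Xt X (insert v T)`), `n' := nd a k L N d - |T|`, `m := a * N` (NDM gives the inequalities), `τ := τ_d`: blocks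
`B b`, `b < a N`; put `U i b := B (i * N + b)` for `i < a`, `b < N`: `Blk V T U a N`. Good: let `B := U i b`,
`|B ∪ T| = nd a k L N d`; for `h0`, `β'` as in `Good` the hypothesis `App .. d` for `V' := B ∪ T` and `β'` gives
`F`, GBK (with `X := Xb X1 B T ⊆ KS k V' T`) gives `j`, `K`, and GBP gives the bound. `m β' = true` if `β ≤ β'` and all
`g (J j) β' = true`: take `Q ∈ X1`; `m (orI (gQ Q) β) = true`, so `m (orI (gQ Q) β') = true`, and all
`g (J j) (orI (gQ Q) β') = true`, so `φ (fun _ => true) = true`. KCN: `cn (Inj h T ∧ m (..) = false) ≤ (1/2)^N c^M`, so `T ∈ B`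
by `Clos.mem` (`|T| ≤ L`). Then `AccQ l B Q` for the members `Q` of `X1` (`T ⊆ Q`, `|T| ≤ l`), a contradiction. -/
def KEY_stmt : Prop := ∀ {M a t S k c σ l L N : ℕ} {g : Fin S → Inp M → Bool} {lv : Fin S → ℕ}
  (d : ℕ) {r : ℕ} (J : Fin r → Fin S) (φ : (Fin r → Bool) → Bool) (m : Inp M → Bool)
  (V T0 : Finset (Fin M)) (β : Inp M) (B : Finset (Finset (Fin M))),
  Par M a t S k c σ l L N → Run M a t S g lv → d + 1 ≤ t → App M a t S k c σ l L N g lv d → r ≤ a →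
  (∀ x, m x = φ fun j => g (J j) x) → Monotone m → (∀ j, lv (J j) ≤ d) →
  nd a k L N (d + 1) ≤ V.card → T0 ⊆ V → T0.card ≤ Ld t σ (d + 1) →
  Clos M c L N (fun h => m (orI (gV V h) β) = true) B →
  ((flt (KS k V T0) fun Q => m (orI (gQ Q) β) = true ∧ ¬ AccQ l B Q).card : ℝ) ≤
    2 * tau t σ d * (KS k V T0).card

end Pool.Agent.HM
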