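import Pool.Agent.helper80.HM.SpecA

/-!
# Hereditarily monotone circuits (MP_069684): rows B (gates, assembly of the lower bound)

Paper proof of the whole theorem: team-store MP_069684_helper80.md.
-/

set_option autoImplicit false

namespace Pool.Agent.HM

open Finset Pool.Agent.helper33.Mod

/-- ROW hm:CLO (short). Closures exist.
PROOF. `exists_closure` (library Closed) with `η := (1/2)^N c^M`; `B.card ≤ (M + 1)^L` by `card_small` (library
Circ; all members have at most `L` elements); `closure_cl` for `cl` (`L ^ 2 ≤ c`). -/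
def CLO_stmt : Prop := ∀ {M c L N : ℕ} (Φ : (Fin M → Fin c) → Prop), 0 < c → L ^ 2 ≤ c →
  ∃ B, Clos M c L N Φ B

/-- ROW hm:MKA (short-medium). A lost clique contains a large minimal extension of `T`.
PROOF. For every `j` with `AccQ l (F j) Q` choose `K j ∈ F j`, `|K j| ≤ l`, `K j ⊆ Q` (otherwise `K j := ∅`). `K' := T ∪ ⋃ j,
K j ⊆ Q`, `|K'| ≤ |T| + r l ≤ |T| + a l ≤ L`. If `Inj h K'` then `AccH l (F j) h` for all `j` with `AccQ l (F j) Q`, so
`φ (bl (AccH ..)) = true` by monotonicity. So `cn (Inj h K' ∧ ¬ Φ h ∧ ¬ Acc B h) = 0` and `K' ∈ B` (`Clos.mem`).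
`exists_min` (library Closed) for `U := T`, `Y := K' \ T` gives `Z ⊆ K' \ T ⊆ Q \ T`, `Z ∈ Mn B T |Z|`, so `T ∪ Z ∈ B`,
`T ∪ Z ⊆ Q`; as `¬ AccQ l B Q`, `l < |T ∪ Z| = |T| + |Z|`; and `|T ∪ Z| ≤ L` (`Cl.le`). -/
def MKA_stmt : Prop := ∀ {M a k c l L N r : ℕ} (V T : Finset (Fin M))
  (F : Fin r → Finset (Finset (Fin M))) (φ : (Fin r → Bool) → Bool) (B : Finset (Finset (Fin M))),
  Monotone φ → r ≤ a → L = (a + 1) * l → T.card ≤ l →
  Clos M c L N (fun h => φ (fun j => bl (AccH l (F j) h)) = true) B →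
  ∀ Q ∈ KS k V T, φ (fun j => bl (AccQ l (F j) Q)) = true → ¬ AccQ l B Q →
    ∃ Z ⊆ Q \ T, Z ∈ Mn B T Z.card ∧ l < T.card + Z.card ∧ T.card + Z.card ≤ L

/-- ROW hm:MKB (medium, from KSZ). Counting these cliques.
PROOF. The set is contained in the union over `b` with `l + 1 ≤ 2 b`, `|T| + b ≤ L` and over `Z ∈ Mn B T b` with `Z ⊆ V` of
`KS k V (T ∪ Z)` (`2 |T| ≤ l < |T| + b`). `|Mn B T b| ≤ (L N)^b` (`card_Mn`, library Closed), KSZ gives
`(k / |V|)^b |KS k V T|`, and `L N k / |V| ≤ 1/16`. The sum over the `b` with `2 b ≥ l + 1` of `16^(-b) = 4^(-2b)` is at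
most `∑_{i ≥ 0} 4^(-(l+1) - 2 i) ≤ 4^(-l)` (for instance: `∑_{b ∈ range (L+1), 2b ≥ l+1} 16^(-b) ≤ 16^(-b0) * 16/15` for
the smallest `b0`). -/
def MKB_stmt : Prop := ∀ {M k l L N : ℕ} (V T : Finset (Fin M)) (B : Finset (Finset (Fin M))),
  Cl L N B → T ⊆ V → 2 * T.card ≤ l → T.card ≤ k → k ≤ V.card → 0 < V.card →
  16 * L * N * k ≤ V.card →
  ((flt (KS k V T) fun Q => ∃ Z ⊆ Q \ T, Z ∈ Mn B T Z.card ∧ l < T.card + Z.card ∧
    T.card + Z.card ≤ L).card : ℝ) ≤ (1 / 4) ^ l * (KS k V T).card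

/-- ROW hm:LCG (short). `Loc` at `i` depends on the families of the wires `j ≤ i` only. -/
def LCG_stmt : Prop := ∀ {M t S k c σ l L N : ℕ} {g : Fin S → Inp M → Bool} {lv : Fin S → ℕ}
  (d : ℕ) (V : Finset (Fin M)) (β : Inp M) (F F' : Fin S → Finset (Finset (Fin M))) (i : Fin S),
  (∀ j ≤ i, F j = F' j) → Loc M t S k c σ l L N g lv d V β F i →
    Loc M t S k c σ l L N g lv d V β F' i

/-- ROW hm:LIN (medium, from CLO, EET). Input wires.
PROOF. `g i x = x e`, `(u, v) := finProdFinEquiv.symm e`. `B` := closure (CLO) of `Φ h := g i (orI (gV V h) β) = true`.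
Neg: `P h := Acc B h ∧ ¬ Φ h` (`AccH l B h` implies `Acc B h`). Pos: `X := ∅`. Let `Q ∈ KS k V T` and
`orI (gQ Q) β e = true`. If `β e = true` then `Φ h` for all `h`, so `∅ ∈ B` (`Clos.mem`, the number is `0`) and
`AccQ l B Q`. Otherwise `gQ Q e = true`: `u, v ∈ Q`, `u ≠ v`; `K := {u, v}`; if `Inj h K` then `h u ≠ h v` and `u, v ∈ V`, so
`gV V h e = true`, `Φ h`; so `K ∈ B`, `|K| = 2 ≤ l`. -/
def LIN_stmt : Prop := ∀ {M a t S k c σ l L N : ℕ} {g : Fin S → Inp M → Bool} {lv : Fin S → ℕ}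
  (d : ℕ) (V : Finset (Fin M)) (β : Inp M) (F : Fin S → Finset (Finset (Fin M))) (i : Fin S)
  (e : Fin (M * M)), Par M a t S k c σ l L N → (∀ x, g i x = x e) →
  ∃ B, Loc M t S k c σ l L N g lv d V β (Function.update F i B) i

/-- ROW hm:LMO (medium, from CLO, EET, NDM, MKA, MKB). Monotone gates.
PROOF. `B` := closure of `Φ h := φ (fun j => bl (AccH l (F (J j)) h)) = true`; `F' := Function.update F i B`, `F' (J j) =
F (J j)` as `J j < i`. Neg: `P h := Acc B h ∧ ¬ Φ h`. If `AccH l B h`, `¬ P h` then `Φ h`; the earlier wires are correct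
(`lv (J j) ≤ lv i ≤ d`), so `bl (AccH l (F (J j)) h) ≤ g (J j) (orI (gV V h) β)` for all `j` and
`g i (..) = φ (..) = true` by monotonicity. Pos: `X := flt (KS k V T) fun Q => φ (fun j => bl (AccQ l (F (J j)) Q)) = true ∧
¬ AccQ l B Q`, contained in the set of MKB by MKA, so `S |X| ≤ S (1/4)^l |KS k V T| ≤ τ_d |KS k V T|` (EET;
`2 |T| ≤ 2 Ld t σ d ≤ l`, `16 L N k = nd 0 ≤ |V|`, `k ≤ nd 0` by NDM). If the earlier wires are correct at `Q` and
`g i (orI (gQ Q) β) = true` then `g (J j) (..) ≤ bl (AccQ l (F (J j)) Q)`, so `φ (bl (AccQ ..)) = true`, and `Q ∉ X`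
gives `AccQ l B Q`. -/
def LMO_stmt : Prop := ∀ {M a t S k c σ l L N : ℕ} {g : Fin S → Inp M → Bool} {lv : Fin S → ℕ}
  (d : ℕ) (V : Finset (Fin M)) (β : Inp M) (F : Fin S → Finset (Finset (Fin M))) (i : Fin S)
  {r : ℕ} (J : Fin r → Fin S) (φ : (Fin r → Bool) → Bool),
  Par M a t S k c σ l L N → nd a k L N 0 ≤ V.card → r ≤ a → (∀ j, J j < i) →
  (∀ x, g i x = φ fun j => g (J j) x) → Monotone φ → (∀ j, lv (J j) ≤ d) →
  ∃ B, Loc M t S k c σ l L N g lv d V β (Function.update F i B) i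

/-- ROW hm:LAL (short-medium, from CLO, EET, KEY). Alternating gates.
PROOF. `B` := closure of `Φ h := g i (orI (gV V h) β) = true`. Neg: `P h := Acc B h ∧ ¬ Φ h`. Pos: `X := flt (KS k V T) fun Q =>
g i (orI (gQ Q) β) = true ∧ ¬ AccQ l B Q`; KEY with `m := g i` gives `|X| ≤ 2 τ_d |KS k V T|`, EET: `S * 2 τ_d ≤ τ_(d+1)`. -/
def LAL_stmt : Prop := ∀ {M a t S k c σ l L N : ℕ} {g : Fin S → Inp M → Bool} {lv : Fin S → ℕ}
  (d : ℕ) (V : Finset (Fin M)) (β : Inp M) (F : Fin S → Finset (Finset (Fin M))) (i : Fin S)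
  {r : ℕ} (J : Fin r → Fin S) (φ : (Fin r → Bool) → Bool),
  Par M a t S k c σ l L N → Run M a t S g lv → d + 1 ≤ t → App M a t S k c σ l L N g lv d →
  nd a k L N (d + 1) ≤ V.card → r ≤ a → (∀ x, g i x = φ fun j => g (J j) x) →
  (∀ j, lv (J j) ≤ d) →
  ∃ B, Loc M t S k c σ l L N g lv (d + 1) V β (Function.update F i B) i

/-- ROW hm:REC (short). Dependent choice along the wires.
PROOF. By induction on `m ≤ S` there is `F` with `P F i` for all `i` with `(i : ℕ) < m`: given `F` for `m`, put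
`F' := Function.update F m B` with `B` from the hypothesis; `P F' i` for `i < m` by congruence (`F'` and `F` agree on
all `j ≤ i < m`). -/
def REC_stmt : Prop := ∀ {S : ℕ} {α : Type} (P : (Fin S → α) → Fin S → Prop), Nonempty α →
  (∀ F F' i, (∀ j ≤ i, F j = F' j) → P F i → P F' i) →
  (∀ F i, ∃ B, P (Function.update F i B) i) → ∃ F, ∀ i, P F i

/-- ROW hm:UNI (medium). Local correctness gives the global approximation.
PROOF. Neg: choose the `P i` of `Loc.neg` for `lv i ≤ d`. If `h` satisfies no `P i` (`lv i ≤ d`) then by strong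
induction on `i` (`lv i ≤ d`) `AccH l (F i) h → g i (orI (gV V h) β) = true`. So the event is contained in the union of
at most `S` events `P i`: `cn ≤ S * ET` (`cn_or`, induction over a finite set). Pos: the same with the sets `X i`: the
set of exceptional `Q` is contained in the union of the `X i`, `∑ |X i| ≤ S * (τ_d |KS| / S)` (`S > 0` as soon as there
is a wire; `S = 0`: the set is empty). -/
def UNI_stmt : Prop := ∀ {M t S k c σ l L N : ℕ} {g : Fin S → Inp M → Bool} {lv : Fin S → ℕ}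
  (d : ℕ) (V : Finset (Fin M)) (β : Inp M) (F : Fin S → Finset (Finset (Fin M))),
  (∀ i, lv i ≤ d → Loc M t S k c σ l L N g lv d V β F i) → AppF M t S k c σ l L N g lv d V β F

/-- ROW hm:ASM (medium, from NDM, EET, LCG, LIN, LMO, LAL, REC, UNI). All levels.
PROOF. Induction on `d`. Fix `V`, `β`. REC with `P F i := lv i ≤ d → Loc .. d V β F i` (congruence: LCG); existence of
`B` by the cases of `Run.step i`: input: LIN; monotone gate: LMO (`lv (J j) ≤ lv i ≤ d`; `nd 0 ≤ nd d ≤ |V|`); other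
gate: `0 < lv i ≤ d`, so `d = d' + 1`, `lv (J j) ≤ d'`: LAL with the induction hypothesis. Then UNI. -/
def ASM_stmt : Prop := ∀ {M a t S k c σ l L N : ℕ} {g : Fin S → Inp M → Bool} {lv : Fin S → ℕ},
  Par M a t S k c σ l L N → Run M a t S g lv → ∀ d ≤ t, App M a t S k c σ l L N g lv d

/-- ROW hm:BGR (medium). The background for large cliques.
PROOF. `V := {v : v < M - (κ - k)}`, `J := Vᶜ`, `|J| = κ - k`; `β := ` all pairs `u ≠ v` not both in `V`. (i) `gQ (Q ∪ J) ≤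
orI (gQ Q) β` and `|Q ∪ J| = κ`. (ii) `h' v := h v` on `V` (as an element of `Fin (κ - 1)`, `k - 1 ≤ κ - 1`) and
`h' v := (k - 1) + (v - (M - (κ - k)))` on `J` (less than `κ - 1`): `orI (gV V h) β ≤ gH h'`. Use `Monotone f`. -/
def BGR_stmt : Prop := ∀ {M k κ : ℕ} (f : Inp M → Bool), Monotone f → Separates M κ f → 1 ≤ k →
  k ≤ κ → κ - k ≤ M → ∃ (V : Finset (Fin M)) (β : Inp M), V.card = M - (κ - k) ∧
    (∀ Q ⊆ V, Q.card = k → f (orI (gQ Q) β) = true) ∧
    ∀ h : Fin M → Fin (k - 1), f (orI (gV V h) β) = false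

/-- ROW hm:TOP (medium, from EET, NDM, BGR, INJ).
PROOF. BGR (`κ - k ≤ M` since `1 ≤ nd t ≤ M - (κ - k)`) gives `V`, `β`; `App .. t` gives `F`. `AppF.pos` for `T = ∅`: the
exceptional `Q` are at most `τ_t |KS k V ∅| ≤ |KS k V ∅| / 2` (EET), and `KS k V ∅` is not empty (`k ≤ nd t ≤ |V|`), so
some `Q ⊆ V`, `|Q| = k` is not exceptional for the wire `o` (`lv o ≤ t`): `g o (orI (gQ Q) β) = true`, so there is
`K ∈ F o`, `|K| ≤ l`. `AppF.neg`: `Inj h K` implies `AccH l (F o) h`, and `g o (orI (gV V h) β) = false`, so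
`cn (Inj h K) ≤ S * ET ≤ (1/8) c^M` (EET, `z = 0`). INJ with `U := univ`, `T := ∅` (`mix univ h0 h = h`):
`cn (¬ Inj h K) ≤ l^2 / (2 c) c^M ≤ (1/8) c^M`. The sum is `c^M`, a contradiction. -/
def TOP_stmt : Prop := ∀ {M a t S k κ σ l L N : ℕ} {g : Fin S → Inp M → Bool} {lv : Fin S → ℕ}
  (o : Fin S), Par M a t S k (k - 1) σ l L N → Run M a t S g lv →
  App M a t S k (k - 1) σ l L N g lv t → k ≤ κ → nd a k L N t ≤ M - (κ - k) →
  Separates M κ (g o) → False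

/-- ROW hm:NUM (medium). The parameters for the theorem.
PROOF. `lam := Nat.log 2 M + 2`, `l := 2 (t+1)^2 σ`, `L := (a+1) l`, `N := 3 + σ + 2 L lam`. `8 (a+1) (t+1)^2 σ = 4 L`, so `16 L^2 < k`,
so `16 L^2 ≤ k - 1`. `k ≤ M` since `k ≤ (8 a k^2 lam)^(t+1) ≤ M - (κ - k)`. `M + 1 ≤ 2^(lam - 1)`, `S ≤ 2^σ`, `l ≤ L`:
`8 S (M+1)^L (k-1)^l ≤ 2^3 2^σ 2^((lam - 1) 2 L) ≤ 2^N`. `a ≤ L ≤ N < 2^N`. `σ ≥ 1`, `L ≥ 4 σ ≥ 4`, so `3 + σ ≤ L lam`, `N ≤ 3 L lam`,
`3 L ≤ k` (`16 L ≤ 16 L^2 < k`). `nd = 16 L N k (8 k a N)^t ≤ 48 L^2 lam k (8 k a k lam)^t ≤ 3 k^2 lam (8 a k^2 lam)^t`. -/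
def NUM_stmt : Prop := ∀ {M a t S k κ σ : ℕ}, 1 ≤ a → 1 ≤ S → 2 * S ≤ 2 ^ σ → k ≤ κ →
  (8 * (a + 1) * (t + 1) ^ 2 * σ) ^ 2 < k →
  (8 * a * k ^ 2 * (Nat.log 2 M + 2)) ^ (t + 1) ≤ M - (κ - k) →
  ∃ l L N : ℕ, Par M a t S k (k - 1) σ l L N ∧ nd a k L N t ≤ M - (κ - k)

/-- ROW hm:MF (short-medium). A gate without alternation is a monotone gate.
PROOF. If `m` is constant take a constant `φ'`. Otherwise put `x0 := fun _ => false`, `x1 := fun _ => true`; `m x0 = false`,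
`m x1 = true` (`m` is monotone and not constant). `p := fun j => g j x0`, `q := fun j => g j x1`; `p ≤ (g j x)_j ≤ q` for
all `x`, `φ p = false`, `φ q = true`. `φ' w := φ (fun j => p j || (w j && q j))`. For `w = (g j x)_j` this is `φ w`. Monotone: let
`w ≤ w'`, `u := p ∨ (w ∧ q) ≤ v := p ∨ (w' ∧ q)`; if `φ u = true` and `φ v = false` then `p ≤ u ≤ v ≤ q` shows `Alt φ`. -/
def MF_stmt : Prop := ∀ {M d : ℕ} (φ : (Fin d → Bool) → Bool) (g : Fin d → Inp M → Bool)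
  (m : Inp M → Bool), (∀ j, Monotone (g j)) → Monotone m → (∀ x, m x = φ fun j => g j x) →
  ¬ Alt φ → ∃ φ' : (Fin d → Bool) → Bool, Monotone φ' ∧ ∀ x, m x = φ' fun j => g j x

/-- ROW hm:RUN (medium, from MF). A hereditarily monotone circuit is a run.
PROOF. `g i x := C.val x i`, `lv i := C.depth i`. `mono`, `lv_le` are clear. `step`: induction on `C` for the statement
`every wire i of C is an input, or there are d ≤ a, J, φ with J j < i, C.val x i = φ (C.val x (J j)), and (¬ Alt φ and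
C.depth (J j) ≤ C.depth i) or (Alt φ and C.depth (J j) < C.depth i)`; for `snoc` the old wires are `Fin.castSucc`
(`Fin.snoc_castSucc`), the new one `Fin.last` (`Fin.snoc_last`), `Finset.le_sup`. Then MF for the gates with
`¬ Alt φ` (all wires are monotone); `0 < C.depth i` since `Alt φ` and `C.depth i = sup + 1`. -/
def RUN_stmt : Prop := ∀ {a M s t : ℕ} (C : HCircuit a (M * M) s), HerMono C t →
  Run M a t (M * M + s) (fun i x => C.val x i) C.depth

/-- ROW hm:LBF (short, from NUM, RUN, ASM, TOP). The lower bound.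
PROOF. `S := M * M + s ≥ 1` (there is the wire `o`). If not `2 ^ σ ≤ 2 * (s + M * M)` then `2 S ≤ 2 ^ σ`; NUM, RUN, ASM (`d = t`), TOP. -/
def LBF_stmt : Prop := ∀ {a M s t κ k σ : ℕ} (C : HCircuit a (M * M) s) (o : Fin (M * M + s)),
  1 ≤ a → HerMono C t → Separates M κ (fun x => C.val x o) → k ≤ κ →
  (8 * (a + 1) * (t + 1) ^ 2 * σ) ^ 2 < k →
  (8 * a * k ^ 2 * (Nat.log 2 M + 2)) ^ (t + 1) ≤ M - (κ - k) → 2 ^ σ ≤ 2 * (s + M * M)

end Pool.Agent.HM
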