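import Pool.Agent.helper80.HM.SpecB
import Pool.Agent.helper69.LN.Defs

/-!
# Hereditarily monotone circuits (MP_069684): rows C (upper bound, criteria, half clique)

Toolkits that may be used: `Pool.Agent.helper55.NT` (files SL, Win, Sim, Threshold).
-/

set_option autoImplicit false

namespace Pool.Agent.HM

open Finset Pool.Agent.helper38.Neg Pool.Agent.helper55.NT
open Pool.Agent.LN (HC)

/-- Quasi-polynomial size hereditarily monotone circuits with gates of fan-in at most `a n` and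
nesting depth at most `t n`. -/
def HMQuasi (a t : ℕ → ℕ) (A : Lang) : Prop :=
  ∃ k : ℕ, ∀ n, ∃ s ≤ 2 ^ (k * lg n ^ k), ∃ (C : HCircuit (a n) n s) (o : Fin (n + s)),
    HerMono C (t n) ∧ ∀ x, C.val x o = true ↔ A n x

/-- The function `p.1` with depth at most `p.2` is available: it is in the list or an input. -/
def OpH {n : ℕ} (L : List (Fn n × ℕ)) (p : Fn n × ℕ) : Prop :=
  (∃ δ ≤ p.2, (p.1, δ) ∈ L) ∨ ∃ i, p.1 = fun x => x i

/-- Straight line hereditarily monotone computations: lists of pairs (function, depth bound). -/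
inductive HSL (a n t : ℕ) : List (Fn n × ℕ) → Prop
  | nil : HSL a n t []
  | gate {L : List (Fn n × ℕ)} {d δ : ℕ} (f : Fn n) (u : Fin d → Fn n × ℕ)
      (φ : (Fin d → Bool) → Bool) : HSL a n t L → d ≤ a → (∀ j, OpH L (u j)) →
      (∀ x, f x = φ fun j => (u j).1 x) → Monotone f → δ ≤ t →
      ((¬ Alt φ ∧ ∀ j, (u j).2 ≤ δ) ∨ ∀ j, (u j).2 + 1 ≤ δ) → HSL a n t ((f, δ) :: L)

/-- `HSL` computations which extend `L` by at most `m` gates and make all pairs in `G` available. -/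
def Ext (a n t : ℕ) (L : List (Fn n × ℕ)) (m : ℕ) (G : Set (Fn n × ℕ)) : Prop :=
  ∃ L', HSL a n t L' ∧ L'.length ≤ L.length + m ∧ (∀ p, OpH L p → OpH L' p) ∧ ∀ p ∈ G, OpH L' p

/-- The window function. -/
def Wn {n : ℕ} (f : Fn n) (lo hi : ℕ) : Fn n := fun x =>
  decide (lo ≤ wt x) && (decide (hi ≤ wt x) || f x)

/-- The threshold function. -/
def Th {n : ℕ} (j : ℕ) : Fn n := fun x => decide (j ≤ wt x)

/-- ROW hm:UAC (medium). Straight line computations are circuits.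
PROOF. Induction on `HSL`, as `SL.toCircuit` (helper55/NT/SL.lean). For `gate`: every `u j` is available by a wire
`w j` of `C` with value `(u j).1` and `C.depth (w j) ≤ (u j).2` (an input wire has depth `0`: induction or a lemma
`C.depth (Fin.castAdd s i) = 0`, `C.val x (Fin.castAdd s i) = x i`); `C' := C.snoc hd w φ`. Depth of the new wire: if
`Alt φ` then the second alternative holds and `d > 0` (`u ≤ v`, `φ u ≠ φ v`), so `sup + 1 ≤ δ`; otherwise `sup ≤ δ`. -/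
def UAC_stmt : Prop := ∀ {a n t : ℕ} {L : List (Fn n × ℕ)}, HSL a n t L →
  ∃ C : HCircuit a n L.length, HerMono C t ∧
    ∀ p, OpH L p → ∃ k, (∀ x, C.val x k = p.1 x) ∧ C.depth k ≤ p.2

/-- ROW hm:UNF (medium). Circuits without NOT gates have depth `0`.
PROOF. Induction on `C` for the statement: some extension by at most `s` gates makes all `(fun x => C.val x o, 0)`
available (`G := {p | ∃ o, p = (fun x => C.val x o, 0)}`). Constants: `d = 0`; AND, OR: `d = 2`, `φ w = w 0 && w 1`, `φ w =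
w 0 || w 1`, monotone, so `¬ Alt φ` (`φ v = true`, `v ≤ w`, `φ w = false` is impossible); all wires of a circuit without
NOT gates are monotone. A NOT gate contradicts `notCount = 0`. -/
def UNF_stmt : Prop := ∀ {a n t s : ℕ} (L : List (Fn n × ℕ)) (C : Circuit n s), 2 ≤ a → HSL a n t L →
  C.notCount = 0 → Ext a n t L s {p | ∃ o, p = (fun x => C.val x o, 0)}

/-- ROW hm:USM (short). The selector gate with `m + 1` branches.
PROOF. `HSL.gate` with `d = 2 m + 1`, `u i := (T i, δ)` for `i < m`, `u (m + i) := (F i, δ)` for `i ≤ m`,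
`φ w := w (m + card {i < m : w i = true})`, second alternative. -/
def USM_stmt : Prop := ∀ {a n t δ : ℕ} (m : ℕ) (L : List (Fn n × ℕ)) (T F : ℕ → Fn n) (f : Fn n),
  2 * m + 1 ≤ a → HSL a n t L → (∀ i < m, OpH L (T i, δ)) → (∀ i ≤ m, OpH L (F i, δ)) →
  δ + 1 ≤ t → Monotone f →
  (∀ x, f x = F ((range m).filter fun i => T i x = true).card x) → Ext a n t L 1 {(f, δ + 1)}

/-- ROW hm:WIM (short). Window functions.
PROOF. `wt` is monotone. The selector identity: the set `{i < m : mid (i + 1) ≤ wt x}` is an initial segment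
`{i : i < j}`. So `mid j ≤ wt x` if `j > 0`, and `wt x < mid (j + 1)` if `j < m`. If `j = 0 < m`: `wt x < mid 1 ≤ mid (m+1)`, both
sides are `mid 0 ≤ wt x ∧ f x`. If `0 < j < m`: both sides are `f x`; if `j = m`: both sides have the same `hi`, and
`lo ≤ wt x` holds on both sides (or `m = 0`). `wt x ≤ n < hi` for the fourth. -/
def WIM_stmt : Prop := ∀ {n : ℕ} (f : Fn n), Mon f →
  (∀ lo hi, lo ≤ hi → Monotone (Wn f lo hi)) ∧ (∀ j, Monotone (Th (n := n) j)) ∧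
  (∀ (m : ℕ) (mid : ℕ → ℕ), Monotone mid → ∀ x, Wn f (mid 0) (mid (m + 1)) x =
    Wn f (mid ((range m).filter fun i => Th (mid (i + 1)) x = true).card)
      (mid (((range m).filter fun i => Th (mid (i + 1)) x = true).card + 1)) x) ∧
  (∀ hi, n + 1 ≤ hi → Wn f 0 hi = f) ∧ Mon (fun _ : Fin n → Bool => true) ∧
  (∀ j b x, Wn (fun _ : Fin n → Bool => true) j (j + b) x = Th j x)

/-- ROW hm:LEA (medium, from UNF, WIM). The leaves and the thresholds.
PROOF. For every `i < K` the window circuit (`window_circuit`, helper55/NT/Sim.lean) for `f`, `C` with `k := i * b` has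
`4 b (s + 1) (n + 2)^(b + 2)` gates and no NOT; append them one after the other (UNF; `Ext` composes: a lemma
`Ext.trans`). The same for the thresholds `Th j`, `j ≤ n + 1`: `window_circuit` for the constant `true` (a circuit
with one gate, `s = 1`), `b`; `Th j = Th (n + 1)` for `j > n + 1` (both are `false`). -/
def LEA_stmt : Prop := ∀ {a n t s : ℕ} (f : Fn n) (C : Circuit n s) (o : Fin (n + s)) (b K : ℕ),
  2 ≤ a → Mon f → (∀ x, C.val x o = f x) → 1 ≤ b →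
  Ext a n t [] (K * (4 * b * (s + 1) * (n + 2) ^ (b + 2)) + (n + 2) * (8 * b * (n + 2) ^ (b + 2)))
    ({p | ∃ i < K, p = (Wn f (i * b) ((i + 1) * b), 0)} ∪ {p | ∃ j, p = (Th j, 0)})

/-- ROW hm:TRM (medium, from USM, WIM, LEA). The tree of selectors; `q = m + 1`.
PROOF. For `j ≤ r` (induction on `j`): an extension of `[]` by at most (LEA with `K := q ^ r`) +
`∑ i ∈ range j, q ^ (r - 1 - i)` gates makes all `(Wn f (i * (b * q^j)) ((i+1) * (b * q^j)), j)`, `i < q^(r-j)`, and all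
`(Th i, 0)` available. Step: `Wn f (i (b q^(j+1))) ((i+1) (b q^(j+1)))` is the selector with the thresholds
`mid l := (i q + l) (b q^j)`, `l = 1, .., m`, of the windows `i q + l`, `l ≤ m`, of the level `j` (WIM, USM with `δ = j`; `Th` has
depth `0 ≤ j`: `OpH` allows that). At `j = r`: `Wn f 0 (b q^r) = f`. The sum is at most `q ^ r` (`q ≥ 2`). -/
def TRM_stmt : Prop := ∀ {a n t s : ℕ} (m : ℕ) (f : Fn n) (C : Circuit n s) (o : Fin (n + s))
  (b r : ℕ), 1 ≤ m → 2 * m + 1 ≤ a → Mon f → (∀ x, C.val x o = f x) → 1 ≤ b → r ≤ t →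
  n + 1 ≤ b * (m + 1) ^ r →
  Ext a n t [] ((m + 1) ^ r * (4 * b * (s + 1) * (n + 2) ^ (b + 2)) +
    (n + 2) * (8 * b * (n + 2) ^ (b + 2)) + (m + 1) ^ r) {(f, r)}

/-- ROW hm:UPM (short-medium, from UAC, TRM). The upper bound.
PROOF. `b ≥ 1`, `q := m + 1`. Choose `r ≤ t` minimal with `n + 1 ≤ b q^r`; then `q^r ≤ q (n + 1)` (if `r > 0` then `b q^(r-1) < n + 1`).
TRM and UAC; the size is at most `q (n+1) (4 b (s+1) (n+2)^(b+2) + 1) + 8 b (n+2)^(b+3) ≤ 18 q b (s+1) (n+2)^(b+3)`. -/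
def UPM_stmt : Prop := ∀ {a n t s : ℕ} (m : ℕ) (f : Fn n) (C : Circuit n s) (o : Fin (n + s))
  (b : ℕ), 1 ≤ m → 2 * m + 1 ≤ a → Mon f → (∀ x, C.val x o = f x) → n + 1 ≤ b * (m + 1) ^ t →
  ∃ s' ≤ 18 * (m + 1) * b * (s + 1) * (n + 2) ^ (b + 3),
    ∃ (C' : HCircuit a n s') (o' : Fin (n + s')), HerMono C' t ∧ ∀ x, C'.val x o' = f x

/-- ROW hm:SHN (short-medium). A function of `d` available functions (Shannon expansion).
PROOF. Induction on `d`. `d = 0`: a constant (`Rel.const`). `d + 1`: `φ u = (u_0 ∧ φ_1) ∨ (¬ u_0 ∧ φ_0)` with `φ_b v := φ (Fin.cons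
b v)`: two computations of cost `5 * 2 ^ d` (`Rel.trans`, `Rel.mono`) and at most `4` further gates. Use the
toolkit `Rel` (helper55/NT/SL.lean). -/
def SHN_stmt : Prop := ∀ {n : ℕ} (d : ℕ) (F : Set (Fn n)) (u : Fin d → Fn n)
  (φ : (Fin d → Bool) → Bool), (∀ j, u j ∈ F) →
  Rel F (5 * 2 ^ d) (5 * 2 ^ d) {fun x => φ fun j => u j x}

/-- ROW hm:EXP (medium, from SHN). Circuits of arbitrary gates of bounded fan-in are circuits.
PROOF. Induction on `C`: `Rel ∅ (5 * 2^a * s) (5 * 2^a * s) {g | ∃ i, g = fun x => C.val x i}` (`Rel.var` for the inputs, SHN for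
a gate, `Rel.trans`; `5 * 2^d ≤ 5 * 2^a`). Then `Rel.toCircuit`. -/
def EXP_stmt : Prop := ∀ {a n s : ℕ} (C : HCircuit a n s) (o : Fin (n + s)),
  ∃ s' ≤ 5 * 2 ^ a * s + 1, ∃ (C' : Circuit n s') (o' : Fin (n + s')), ∀ x, C'.val x o' = C.val x o

/-- ROW hm:CRM (medium, from UPM, EXP). The criterion for polynomial size; fan-in up to `O(log n)`.
PROOF. (⇒) `A` monotone in NP/Poly has circuits of size `p(n)`; UPM with `m := (a n - 1) / 2` (so `m + 1 = (a n + 1) / 2`,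
`2 m + 1 ≤ a n`), `b := c + 1` (as in `poly_criterion`, helper55/NT/Threshold.lean; `mon_of`); `m + 1 ≤ c' (lg n + 1)
≤ c' (n + 2)`. (⇐) a monotone language of NP/Poly is in P/Poly by EXP: `2 ^ a n ≤ (2 ^ lg n) ^ c' ≤ (n + 2) ^ c'`; now the
theorem `DBL` (Pool/Agent/helper23/HT/DBL.lean, first part). -/
def CRM_stmt : Prop := ∀ a t : ℕ → ℕ, (∀ n, 3 ≤ a n) → (∃ c, ∀ n, a n ≤ c * lg n) →
  (∃ c, ∀ n, n ≤ c * ((a n + 1) / 2) ^ t n) →
  ((∀ A, InNPPoly A → InPPoly A) ↔ ∀ A, InNPPoly A → (∀ n, Monotone (A n)) → HMPoly a t A)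

/-- ROW hm:CRN (medium, from UPM, EXP). The criterion for quasi-polynomial size; fan-in up to
`(log n)^O(1)`.
PROOF. (⇒) as `quasiNots_of` (helper55/NT/Threshold.lean) with UPM instead of `sim`: `b := c * lg n ^ c + 1`. (⇐) EXP
(`2 ^ a n` is quasi-polynomial) and the second part of `DBL` (Pool/Agent/helper23/HT/DBL.lean). -/
def CRN_stmt : Prop := ∀ a t : ℕ → ℕ, (∀ n, 3 ≤ a n) → (∃ c, ∀ n, a n ≤ c * lg n ^ c) →
  (∃ c, ∀ n, n ≤ c * lg n ^ c * ((a n + 1) / 2) ^ t n) →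
  ((∀ A, InNPPoly A → InQuasi A) ↔ ∀ A, InNPPoly A → (∀ n, Monotone (A n)) → HMQuasi a t A)

/-- The first `m` inputs are `x`, the others are `0`. -/
def pad {m n : ℕ} (x : Fin m → Bool) : Fin n → Bool := fun i => if h : i.val < m then x ⟨i.val, h⟩ else false

/-- ROW hm:PAD (medium). Fixing inputs to `0`.
PROOF. Induction on `C` with the first gate of the new circuit the constant `false` (`d = 0`, depth `0`): for every
`C : HCircuit a n s` there is `C' : HCircuit a m (s + 1)` and a map `e : Fin (n + s) → Fin (m + (s + 1))` with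
`C'.val x (e i) = C.val (pad x) i`, `C'.depth (e i) ≤ C.depth i` (`i < m`: the input `i`; `m ≤ i < n`: the constant; gates: with
the wires `e (w j)`; `m + ((s + 1) + 1)`), all wires of `C'` monotone and of depth `≤ t`. `pad` is monotone. -/
def PAD_stmt : Prop := ∀ {a m n s t : ℕ} (C : HCircuit a n s) (o : Fin (n + s)), m ≤ n → HerMono C t →
  ∃ (C' : HCircuit a m (s + 1)) (o' : Fin (m + (s + 1))), HerMono C' t ∧
    ∀ x, C'.val x o' = C.val (pad x) o

/-- ROW hm:HCB (medium). Arithmetic for the half clique function.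
PROOF. `B := lg n`, `E := 4 e + 11`, `k := B ^ E`, `M := √n`, `κ := M / 2`, `σ := B ^ e + B + 3`. Since `n` is large and
`C (t + 1) lg B < B`: `t + 1 ≤ B`, `2 (s + 1 + M * M) < 2 ^ σ` (`M * M ≤ n < 2 ^ (B + 1)`, `s ≤ 2 ^ (B ^ e)`), `σ ≤ B ^ (e + 2)`,
`8 (a + 1) ≤ 16 B ^ e ≤ B ^ (e + 1)`, so `(8 (a+1) (t+1)^2 σ)^2 ≤ (B^(e+1) * B^2 * B^(e+2))^2 = B^(4e+10) < k`.
`8 a k^2 (Nat.log 2 M + 2) ≤ B^(e+1) B^(2E) B = B^(2E+e+2)`; with `B < 2^(lg B + 1)`: `(..)^(t+1) ≤ 2^((lg B + 1) (2E+e+2) (t+1)) ≤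
2^(2 (2E+e+2) (t+1) lg B) ≤ 2^(B / 2 - 3) ≤ √n / 4 ≤ M - κ ≤ M - (κ - k)` for `C ≥ 100 (E + 1)` and large `n` (`n + 2 ≥ 2 ^ B`, so
`√n ≥ 2^(B/2 - 1)`). `k ≤ κ`: `k ≤ (..)^(t+1) ≤ √n / 4 ≤ M / 2`. -/
def HCB_stmt : Prop := ∀ e : ℕ, ∃ C : ℕ, ∀ n ≥ C, ∀ a t s : ℕ, 1 ≤ a → a ≤ lg n ^ e →
  s ≤ 2 ^ (lg n ^ e) → C * (t + 1) * lg (lg n) < lg n →
  ∃ k σ : ℕ, 1 ≤ k ∧ k ≤ Nat.sqrt n / 2 ∧ (8 * (a + 1) * (t + 1) ^ 2 * σ) ^ 2 < k ∧
    (8 * a * k ^ 2 * (Nat.log 2 (Nat.sqrt n) + 2)) ^ (t + 1) ≤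
      Nat.sqrt n - (Nat.sqrt n / 2 - k) ∧
    2 * (s + 1 + Nat.sqrt n * Nat.sqrt n) < 2 ^ σ

/-- ROW hm:HCM (short-medium, from HCB, PAD, LBF). The half clique function.
PROOF. Suppose `C (t + 1) lg (lg n) < lg n`. PAD with `m := √n * √n ≤ n`; the function `x ↦ C'.val x o'` accepts `x` iff `x` has a
clique with `√n / 2` vertices (`HC`; `pad x (Fin.castLE _ i) = x i`), so it satisfies `Separates (√n) (√n / 2)`
(`clique_gQ`, `not_clique_gH` of helper33/Mod/Circ.lean; the two definitions of `Clique` have the same body). LBF with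
the parameters of HCB: `2 ^ σ ≤ 2 (s + 1 + M * M)`, a contradiction. -/
def HCM_stmt : Prop := ∀ e : ℕ, ∃ C : ℕ, ∀ n ≥ C, ∀ (a t s : ℕ) (c : HCircuit a n s)
  (o : Fin (n + s)), 1 ≤ a → a ≤ lg n ^ e → s ≤ 2 ^ (lg n ^ e) → HerMono c t →
  (∀ x, c.val x o = true ↔ HC n x) → lg n ≤ C * (t + 1) * lg (lg n)

/-- ROW hm:HCR (short-medium, from HCM). Quasi-polynomial size needs depth.
PROOF. `HC` is in NP/Poly and monotone (`Pool.Agent.LN.HNP`, Pool/Agent/helper13/LN/HNP.lean). If it is in `HMQuasi a t` with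
`k` then `k * lg n ^ k ≤ lg n ^ (k + 1)` for large `n` (`lg n ≥ k`), similarly for `a`, and HCM with `e := k + c + 1`. -/
def HCR_stmt : Prop := ∀ a t : ℕ → ℕ, (∀ n, 1 ≤ a n) → (∃ c, ∀ n, a n ≤ c * lg n ^ c) →
  (∀ A, InNPPoly A → (∀ n, Monotone (A n)) → HMQuasi a t A) →
  ∃ C : ℕ, ∀ n ≥ C, lg n ≤ C * (t n + 1) * lg (lg n)

/-- ROW hm:THR (medium, from CRM, HCM). The threshold for the nesting depth is `Θ(log n / loglog n)`.
PROOF. Fan-in `lg n + 3`. (i) If `2 lg n ≤ t(n) lg (lg n)` for large `n` then `n < 2^(lg n + 1)`, and with `q := (lg n + 4) / 2 ≥ (lg n + 2) / 2 ≥ 2^(lg (lg n) - 1)`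
one has `q ^ t ≥ 2^((lg (lg n) - 1) t) ≥ 2^(lg (lg n) t / 2) ≥ 2^(lg n)` as soon as `lg (lg n) ≥ 2`; so `n ≤ c q^(t n)` for all `n` with
a constant `c` (finitely many small `n`; `q ≥ 1`). CRM. (ii) `C` is the constant of HCM for `e = 2`: the half clique language
(`Pool.Agent.LN.HNP`, Pool/Agent/helper13/LN/HNP.lean) has circuits of size `p(n) ≤ 2 ^ (k * lg n) ≤ 2 ^ (lg n ^ 2)` for large `n`
(`eval_le_two_pow`, helper55/NT/Threshold.lean), and `lg n + 3 ≤ lg n ^ 2` for large `n`. -/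
def THR_stmt : Prop :=
  (∀ t : ℕ → ℕ, (∃ n0, ∀ n ≥ n0, 2 * lg n ≤ t n * lg (lg n)) →
    ((∀ A, InNPPoly A → InPPoly A) ↔
      ∀ A, InNPPoly A → (∀ n, Monotone (A n)) → HMPoly (fun n => lg n + 3) t A)) ∧
  ∃ C : ℕ, ∀ t : ℕ → ℕ, (∀ n0, ∃ n ≥ n0, C * (t n + 1) * lg (lg n) < lg n) →
    ¬ ∀ A, InNPPoly A → (∀ n, Monotone (A n)) → HMPoly (fun n => lg n + 3) t A

end Pool.Agent.HM
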