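import Pool.Agent.helper80.HM.HCX

/-!
# Hereditarily monotone circuits (MP_069684): rows D (the half clique language is complete)

Every language of NP/Poly is reduced to the half clique language `HC`; so the criteria and the
threshold theorem can be stated for `HC` alone.
-/

set_option autoImplicit false

namespace Pool.Agent.HM

open Finset Pool.Agent.helper38.Neg Pool.Agent.helper55.NT
open Pool.Agent.LN (HC)

/-- ROW hm:ACC (medium). The gates of a circuit as local equations.
PROOF. Induction on `C`. `nil`: `s = 0`, `C.val x = x`, `Fin.castAdd 0 i = i`. `snoc C g`: the old `P`, `Q`, `φ` composed with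
`Fin.castSucc`; the new gate (`Fin.last`): constant `b`: `P = Q = Fin.last`, `φ _ _ = b`; AND, OR `i j`: `P = castSucc i`,
`Q = castSucc j`; NOT `i`: `P = Q = castSucc i`. `z = (C.snoc g).val x` iff `z ∘ castSucc = C.val x` and
`z last = g.eval (z ∘ castSucc)`. -/
def ACC_stmt : Prop := ∀ {n s : ℕ} (C : Circuit n s), ∃ (P Q : Fin s → Fin (n + s))
  (φ : Fin s → Bool → Bool → Bool), ∀ (x : Fin n → Bool) (z : Fin (n + s) → Bool),
    z = C.val x ↔ (∀ i, z (Fin.castAdd s i) = x i) ∧
      ∀ g, z (Fin.natAdd n g) = φ g (z (P g)) (z (Q g))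

/-- ROW hm:CPO (short-medium). Composition: a circuit applied to available functions.
PROOF. Induction on `D`: `Rel F s s {g | ∃ i, g = fun x => D.val (fun j => u j x) i}` (`nil`: `Rel.sub`; a gate: `Rel.const`,
`Rel.and`, `Rel.or`, `Rel.not`, `Rel.trans`, `Rel.mono`), toolkit helper55/NT/SL.lean. -/
def CPO_stmt : Prop := ∀ {n m s : ℕ} (D : Circuit m s) (o : Fin (m + s)) (F : Set (Fn n))
  (u : Fin m → Fn n), (∀ j, u j ∈ F) → Rel F s s {fun x => D.val (fun j => u j x) o}

/-- The vertices: `(i, b)`: the wire `i` has the value `b`; `(g, b, b')`: the gate `g` reads `b` and `b'`; the checks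
(`none`: the output; `some c`: the input `c`); universal vertices; isolated vertices. -/
abbrev NV (n w s : ℕ) : Type :=
  (Fin (n + w + s) × Bool) ⊕ (Fin s × Bool × Bool) ⊕ Option (Fin n) ⊕ Fin (2 * s) ⊕ Fin (n + 1)

/-- The slots. -/
abbrev NK (n w s : ℕ) : Type := Fin (n + w + s) ⊕ Fin s ⊕ Option (Fin n) ⊕ Fin (2 * s)

/-- The slot of a vertex; `none` for isolated vertices. -/
def ncls {n w s : ℕ} : NV n w s → Option (NK n w s)
  | Sum.inl (i, _) => some (Sum.inl i)
  | Sum.inr (Sum.inl (g, _)) => some (Sum.inr (Sum.inl g))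
  | Sum.inr (Sum.inr (Sum.inl c)) => some (Sum.inr (Sum.inr (Sum.inl c)))
  | Sum.inr (Sum.inr (Sum.inr (Sum.inl j))) => some (Sum.inr (Sum.inr (Sum.inr j)))
  | Sum.inr (Sum.inr (Sum.inr (Sum.inr _))) => none

/-- The conditions between the vertices of different slots, in one direction. -/
def ncon {n w s : ℕ} (P Q : Fin s → Fin (n + w + s)) (φ : Fin s → Bool → Bool → Bool)
    (o : Fin (n + w + s)) (x : Fin n → Bool) : NV n w s → NV n w s → Prop
  | Sum.inl (i, b), Sum.inr (Sum.inl (g, b1, b2)) =>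
      (i = P g → b = b1) ∧ (i = Q g → b = b2) ∧ (i = Fin.natAdd (n + w) g → b = φ g b1 b2)
  | Sum.inl (i, b), Sum.inr (Sum.inr (Sum.inl none)) => i = o → b = true
  | Sum.inl (i, b), Sum.inr (Sum.inr (Sum.inl (some c))) =>
      i = Fin.castAdd s (Fin.castAdd w c) → b = x c
  | _, _ => True

/-- Adjacency. -/
def nadj {n w s : ℕ} (P Q : Fin s → Fin (n + w + s)) (φ : Fin s → Bool → Bool → Bool)
    (o : Fin (n + w + s)) (x : Fin n → Bool) (α β : NV n w s) : Prop :=
  ncls α ≠ none ∧ ncls β ≠ none ∧ ncls α ≠ ncls β ∧ ncon P Q φ o x α β ∧ ncon P Q φ o x β α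

/-- The number of vertices. -/
def nM (n w s : ℕ) : ℕ := 2 * (n + w + s) + 6 * s + 2 * n + 2

/-- The adjacency matrix, for a numbering `e` of the vertices. -/
noncomputable def nmat {n w s : ℕ} (e : NV n w s ≃ Fin (nM n w s))
    (P Q : Fin s → Fin (n + w + s)) (φ : Fin s → Bool → Bool → Bool)
    (o : Fin (n + w + s)) (x : Fin n → Bool) : Fin (nM n w s * nM n w s) → Bool := fun i =>
  bl (nadj P Q φ o x (e.symm (finProdFinEquiv.symm i).1) (e.symm (finProdFinEquiv.symm i).2))

/-- ROW hm:NLI (short-medium). The vertices can be numbered and every entry of the matrix is a constant or a literal.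
PROOF. `Fintype.card (NV n w s) = 2 (n + w + s) + 4 s + (n + 1) + 2 s + (n + 1)`. For the second part: if no pair of the form
(wire `(i, b)`, check `some c`) occurs, `nadj` does not depend on `x`; otherwise it is `True` or `b = x c`. -/
def NLI_stmt : Prop := (∀ n w s : ℕ, Nonempty (NV n w s ≃ Fin (nM n w s))) ∧
  ∀ {n w s : ℕ} (e : NV n w s ≃ Fin (nM n w s)) (P Q : Fin s → Fin (n + w + s))
    (φ : Fin s → Bool → Bool → Bool) (o : Fin (n + w + s)) (i : Fin (nM n w s * nM n w s)),
    (∃ b, ∀ x, nmat e P Q φ o x i = b) ∨ (∃ c, ∀ x, nmat e P Q φ o x i = x c) ∨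
      ∃ c, ∀ x, nmat e P Q φ o x i = !(x c)

/-- ROW hm:NCF (medium). From an accepting assignment to a clique.
PROOF. The clique consists of the images under `e` of `(i, z i)`, `(g, z (P g), z (Q g))`, all checks and all universal
vertices: `(n + w + s) + s + (n + 1) + 2 s = nM / 2` vertices (an injective image of `NK n w s`), pairwise adjacent: the
slots are different and `ncon` holds in all cases. -/
def NCF_stmt : Prop := ∀ {n w s : ℕ} (e : NV n w s ≃ Fin (nM n w s)) (P Q : Fin s → Fin (n + w + s))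
  (φ : Fin s → Bool → Bool → Bool) (o : Fin (n + w + s)) (x : Fin n → Bool)
  (z : Fin (n + w + s) → Bool), (∀ c, z (Fin.castAdd s (Fin.castAdd w c)) = x c) →
  (∀ g, z (Fin.natAdd (n + w) g) = φ g (z (P g)) (z (Q g))) → z o = true →
  Pool.Agent.helper33.Mod.Clique (nM n w s) (nM n w s / 2) (nmat e P Q φ o x)

/-- ROW hm:NCB (medium). From a clique to an accepting assignment.
PROOF. `S` has `nM / 2 = Fintype.card (NK n w s) ≥ 2` elements (`n + w + s ≥ 1` because of `o`). `Clique` gives `nadj` for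
`u < v` in `S`; `nadj` is symmetric, so all pairs `u ≠ v` of `S` are adjacent. So no vertex of `S` is isolated, the slots
of the members of `S` are different, and every slot occurs (same number). So for every wire `i` exactly one
`(i, b) ∈ S`: `z i := b`. For a gate `g` the vertex `(g, b1, b2) ∈ S` gives `z (P g) = b1`, `z (Q g) = b2`,
`z (natAdd (n + w) g) = φ g b1 b2`; the checks give `z o = true` and `z (..c) = x c`. -/
def NCB_stmt : Prop := ∀ {n w s : ℕ} (e : NV n w s ≃ Fin (nM n w s)) (P Q : Fin s → Fin (n + w + s))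
  (φ : Fin s → Bool → Bool → Bool) (o : Fin (n + w + s)) (x : Fin n → Bool),
  Pool.Agent.helper33.Mod.Clique (nM n w s) (nM n w s / 2) (nmat e P Q φ o x) →
  ∃ z : Fin (n + w + s) → Bool, (∀ c, z (Fin.castAdd s (Fin.castAdd w c)) = x c) ∧
    (∀ g, z (Fin.natAdd (n + w) g) = φ g (z (P g)) (z (Q g))) ∧ z o = true

/-- ROW hm:NHS (short). The half clique language in the length `M * M`.
PROOF. `Nat.sqrt (M * M) = M`; generalise: for `r = M`, `Clique r (r / 2) (fun i => x (Fin.castLE _ i)) ↔ Clique M (M / 2) x`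
(`subst`). The two definitions of `Clique` have the same body. -/
def NHS_stmt : Prop := ∀ (M : ℕ) (x : Fin (M * M) → Bool),
  HC (M * M) x ↔ Pool.Agent.helper33.Mod.Clique M (M / 2) x

/-- ROW hm:NRE (medium, from ACC, CPO, NLI, NCF, NCB, NHS). The reduction for one length.
PROOF. ACC for `C` gives `P`, `Q`, `φ`; NLI a numbering `e`. By NCF, NCB, NHS: `HC (M * M) (nmat e P Q φ o x)` iff there is `z` with the
local equations, `z o = true`, `z (castAdd (castAdd c)) = x c`; put `y j := z (Fin.castAdd s (Fin.natAdd n j))`: `z = C.val (Fin.append x y)` by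
ACC, so iff `∃ y, C.val (Fin.append x y) o = true`. The circuit: negations of the inputs (`n` gates), two constants, then
`D` (CPO with `u i x := nmat e P Q φ o x i`, which are available by NLI); `Rel.toCircuit`. -/
def NRE_stmt : Prop := ∀ {n w s r : ℕ} (C : Circuit (n + w) s) (o : Fin (n + w + s))
  (D : Circuit (nM n w s * nM n w s) r) (o' : Fin (nM n w s * nM n w s + r)),
  (∀ x, D.val x o' = true ↔ HC (nM n w s * nM n w s) x) →
  ∃ s' ≤ r + n + 2, ∃ (C' : Circuit n s') (o'' : Fin (n + s')),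
    ∀ x, C'.val x o'' = true ↔ ∃ y : Fin w → Bool, C.val (Fin.append x y) o = true

/-- ROW hm:NPC (medium, from NRE). The half clique language is complete.
PROOF. `w, s ≤ p(n)`, `nM n w s ≤ 4 n + 10 p(n) + 2 =: m(n)`; the circuits for `HC (nM * nM)` have size `≤ q(nM * nM) ≤ q(m(n)^2)`
(polynomials over `ℕ` are monotone), NRE. Quasi-polynomial: `lg (m(n)^2) ≤ c' lg n` (`eval_le_two_pow`,
helper55/NT/Threshold.lean), so `2 ^ (k lg(..)^k) + n + 2 ≤ 2 ^ (k' lg n ^ k')`. -/
def NPC_stmt : Prop :=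
  (InPPoly HC → ∀ A, InNPPoly A → InPPoly A) ∧ (InQuasi HC → ∀ A, InNPPoly A → InQuasi A)

/-- ROW hm:CRH (short-medium, from UPM, EXP, NPC). The criteria for the half clique language alone.
PROOF. (⇒) `HC` is in NP/Poly and monotone (`Pool.Agent.LN.HNP`, Pool/Agent/helper13/LN/HNP.lean), so in P/Poly (resp. has
quasi-polynomial circuits), and UPM as in the rows CRM, CRN (Pool/Agent/helper97/HM/{CRM,CRN}.lean; these two
theorems may be imported: their left to right directions for `A = HC`). (⇐) EXP as there gives `InPPoly HC` (resp.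
`InQuasi HC`), then NPC. -/
def CRH_stmt : Prop :=
  (∀ a t : ℕ → ℕ, (∀ n, 3 ≤ a n) → (∃ c, ∀ n, a n ≤ c * lg n) →
    (∃ c, ∀ n, n ≤ c * ((a n + 1) / 2) ^ t n) →
    ((∀ A, InNPPoly A → InPPoly A) ↔ HMPoly a t HC)) ∧
  (∀ a t : ℕ → ℕ, (∀ n, 3 ≤ a n) → (∃ c, ∀ n, a n ≤ c * lg n ^ c) →
    (∃ c, ∀ n, n ≤ c * lg n ^ c * ((a n + 1) / 2) ^ t n) →
    ((∀ A, InNPPoly A → InQuasi A) ↔ HMQuasi a t HC))

/-- ROW hm:THH (short-medium, from CRH, HCX). The threshold for the half clique language.
PROOF. (i) as in the row THR (Pool/Agent/helper31/HM/THR.lean, which may be imported), with CRH. (ii) HCX with `e = 2`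
(`lg n + 3 ≤ lg n ^ 2` for large `n`) and the constant `C`; the circuits have size `p(n)`, but for
`n` with `C (t + 1) lg (lg n) < lg n` the size is more than `2 ^ 2 ^ (lg n / (C (t + 1)))` and `lg n / (C (t + 1)) ≥ lg (lg n)`, so
more than `2 ^ ((lg n + 2) / 2)`. That is not enough; so take the constant `4 C`: if `4 C (t + 1) lg (lg n) < lg n` then
`lg n / (C (t + 1)) ≥ 4 lg (lg n) - 1 ≥ 3 lg (lg n)`, `2 ^ (3 lg (lg n)) ≥ ((lg n + 2) / 2) ^ 3 > k lg n ^ 2 ≥ log2 p(n)` for
large `n`. (Or use HCM, with `e = 2`.) -/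
def THH_stmt : Prop :=
  (∀ t : ℕ → ℕ, (∃ n0, ∀ n ≥ n0, 2 * lg n ≤ t n * lg (lg n)) →
    ((∀ A, InNPPoly A → InPPoly A) ↔ HMPoly (fun n => lg n + 3) t HC)) ∧
  ∃ C : ℕ, ∀ t : ℕ → ℕ, (∀ n0, ∃ n ≥ n0, C * (t n + 1) * lg (lg n) < lg n) →
    ¬ HMPoly (fun n => lg n + 3) t HC

end Pool.Agent.HM
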